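import Pool.Agent.H96.MC.Basic

/-!
Targets of the combinatorial modules (MP_5da387_pr).
-/

namespace Pool.Agent.H96.MC

open Classical MeasureTheory ProbabilityTheory

noncomputable section

/-- lattice points which are close to a large multiple of `lam` are sums of types -/
def T_CONE : Prop := ∀ (q : ℕ) (D : Dat q), ∃ η c₀ : ℝ, 0 < η ∧ η ≤ 1 / 2 ∧ 0 < c₀ ∧
  ∀ (x : Fin q → ℕ) (c : ℝ), c₀ ≤ c → Fat D.lam η c x → toZ x ∈ Lat D.V →
    x ∈ AddSubmonoid.closure (D.V : Set (Fin q → ℕ))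

/-- small representatives of the classes modulo the group of the types -/
def T_CLS : Prop := ∀ (q : ℕ) (D : Dat q), ∃ E : ℕ, 1 ≤ E ∧
  (∀ y : Fin q → ℤ, ∃ s : Fin q → ℕ, (∀ i, s i < E) ∧ y - toZ s ∈ Lat D.V) ∧
  ∀ y : Fin q → ℤ, (E : ℤ) • y ∈ Lat D.V

/-- flows with prescribed divergence on a connected set of cells -/
def T_FLOW : Prop := ∀ (d : ℕ) (A : Type) (_ : AddCommGroup A) (Y : Finset (Cell d)) (f : Cell d → A),
  Conn Y → ∑ b ∈ Y, f b = 0 →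
  ∃ φ : Cell d → Cell d → A, (∀ b b', φ b b' ≠ 0 → b ∈ Y ∧ b' ∈ Y ∧ Adj b b') ∧
    ∀ b ∈ Y, ∑ b' ∈ Y, φ b b' - ∑ b' ∈ Y, φ b' b = f b

/-- boxes are connected -/
def T_BOX : Prop := ∀ (d : ℕ) (a b : Cell d), Conn (Fintype.piFinset (fun i => Finset.Icc (a i) (b i)))

/-- lifting a decomposition into families through a coupling of cells -/
def T_LIFT : Prop := ∀ (d q : ℕ) (V : Finset (Fin q → ℕ)) (r r' : ℝ) (ι : Type) (α β : ι → Cell d)
  (κ : ι → Fin q) (U : ι →₀ ℕ),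
  (∀ s ∈ U.support, ∀ t ∈ U.support, nrm (β s - β t) ≤ r → nrm (α s - α t) ≤ r') →
  U.mapDomain (fun t => (β t, κ t)) ∈ Tl V r → U.mapDomain (fun t => (α t, κ t)) ∈ Tl V r'

/-- a pattern of small diameter whose total is a sum of types -/
def T_SMALL : Prop := ∀ (d q : ℕ) (V : Finset (Fin q → ℕ)) (r : ℝ) (u : Pat d q),
  tot u ∈ AddSubmonoid.closure (V : Set (Fin q → ℕ)) →
  (∀ x ∈ u.support, ∀ y ∈ u.support, nrm (x.1 - y.1) ≤ r) → u ∈ Tl V r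

/-- the absorption lemma -/
def T_AL : Prop := ∀ (q : ℕ) (D : Dat q), ∃ η : ℝ, 0 < η ∧ η ≤ 1 / 2 ∧
  ∀ d : ℕ, 1 ≤ d → ∃ c₁ : ℝ, ALok D d η c₁

/-- clusters of a finite set of blocks at one of the scales `rho 0, rho 1, ...` -/
def T_CLU : Prop := ∀ (d n0 : ℕ) (rho : ℕ → ℕ) (A : Finset (Cell d)), Monotone rho → A.card ≤ n0 →
  ∃ i ≤ n0, ∃ C : Finset (Cell d), C ⊆ A ∧
    (∀ a ∈ A, ∃ c ∈ C, sn (a - c) ≤ n0 * rho i) ∧
    (∀ a ∈ A, ∀ c ∈ C, sn (a - c) ≤ n0 * rho i ∨ rho (i + 1) < sn (a - c)) ∧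
    (∀ c ∈ C, ∀ c' ∈ C, c ≠ c' → rho (i + 1) < sn (c - c'))

/-- spheres of the sup norm are connected, in dimension at least two -/
def T_SPH : Prop := ∀ (d : ℕ) (c : Cell d) (k : ℕ), 2 ≤ d →
  Conn ((cube c k).filter (fun b => sn (b - c) = k))

/-- removing disjoint cubes does not disconnect, in dimension at least two -/
def T_CONN : Prop := ∀ (d : ℕ) (Y C : Finset (Cell d)) (s : ℕ), 2 ≤ d → Conn Y →
  (∀ c ∈ C, cube c (s + 1) ⊆ Y) → (∀ c ∈ C, ∀ c' ∈ C, c ≠ c' → 2 * (s + 1) < sn (c - c')) →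
  Conn (Y.filter (fun b => ∀ c ∈ C, s < sn (b - c)))

/-- thinning of a matching of a window: every family which touches the inner cube is kept, no kept
family leaves the outer cube, and every ring block keeps a fat leftover -/
def T_TH : Prop := ∀ (d q : ℕ) (D : Dat q) (η e : ℝ) (N s : ℕ), 0 < η → η ≤ 1 / 2 → 0 < e →
  e ≤ 1 / 2 → 1 ≤ N → ∃ L₀ : ℝ, 0 < L₀ ∧
  ∀ (L : ℝ) (m : Cfg d q) (μ : Multiset (Pat d q)) (y : Pat d q), L₀ ≤ L →
    (∀ u ∈ μ, Fam D.V (N : ℝ) u) → (∀ x, sn x.1 ≤ s + t1F η e N → y x = 0) →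
    μ.sum + y = rst (red e s (s + t1F η e N) m) (cube 0 (s + t1F η e N + N)) →
    (∀ b, s < sn b → sn b ≤ s + t1F η e N + N → Fat D.lam (η / 4) L (fun i => m (b, i))) →
    ∃ μ' : Multiset (Pat d q), μ' ≤ μ ∧
      μ'.filter (fun u => ∃ x ∈ u.support, sn x.1 ≤ s) = μ.filter (fun u => ∃ x ∈ u.support, sn x.1 ≤ s) ∧
      (∀ u ∈ μ', ∀ x ∈ u.support, sn x.1 ≤ s + t1F η e N) ∧
      (∀ x, μ'.sum x ≤ m x) ∧
      (∀ x : CC d q, sn x.1 ≤ s → μ'.sum x = m x) ∧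
      (∀ b, s < sn b → sn b ≤ s + t1F η e N → ∃ c : ℝ, e * L ≤ c ∧ c ≤ L ∧
        Fat D.lam η c (fun i => m (b, i) - μ'.sum (b, i)))

/-- the region lemma in dimension at least two -/
def T_RL2 : Prop := ∀ (d q : ℕ) (D : Dat q) (η c₁ e : ℝ) (N n0 : ℕ), 2 ≤ d → ALok D d η c₁ →
  0 < e → e ≤ 1 / 2 → 2 ≤ N → ∃ L₀ : ℝ, ∀ L : ℝ, L₀ ≤ L →
    RLok D d η N n0 e (sF η e N n0) (TF η e N n0) (KF η e N n0) L

/-- the region lemma in dimension one -/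
def T_RL1 : Prop := ∀ (q : ℕ) (D : Dat q) (η c₁ e : ℝ) (N n0 : ℕ), ALok D 1 η c₁ →
  0 < e → e ≤ 1 / 2 → 2 ≤ N → ∃ L₀ : ℝ, ∀ L : ℝ, L₀ ≤ L →
    RLok D 1 η N n0 e (sF η e N n0) (TF η e N n0) (KF η e N n0) L

/-! ### large deviations -/

/-- bad windows exist -/
def T_ZNE : Prop := ∀ (d q : ℕ) (D : Dat q) (N s T : ℕ), (ZBad d D.V N s T).Nonempty

/-- the bad windows form a semilinear set -/
def T_SEMI : Prop := ∀ (d q : ℕ) (D : Dat q) (N s T : ℕ), N ≤ s → s ≤ T →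
  IsSemilinearSet (ZBad d D.V N s T)

/-- the rate of a semilinear set is a limit -/
def T_LIM : Prop := ∀ (κ : Type) (_ : Fintype κ) (lam : κ → ℝ) (Z : Set (κ → ℕ)), (∀ k, 0 < lam k) →
  IsSemilinearSet Z → Z.Nonempty →
  Filter.Tendsto (fun L : ℕ => -Real.log (PL lam L Z) / L) Filter.atTop (nhds (rate lam Z))

/-- windows with typical superblocks of side `k` are good -/
def T_SUP : Prop := ∀ (d q : ℕ) (D : Dat q) (η c₁ : ℝ), 1 ≤ d → ALok D d η c₁ →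
  ∃ c₂ : ℝ, 0 < c₂ ∧ ∀ (N s T k : ℕ) (C : ℝ) (m : Cfg d q), (d + 2) * k ≤ N → 1 ≤ k → N ≤ s → s ≤ T →
    c₂ ≤ C →
    (∀ b, cellsOf k b ⊆ cube 0 (T + N) → Fat D.lam (η / 2) C (fun i => bc k m (b, i))) →
    ∀ g, Good D.V N s T m g

/-- two-sided tail bound for a Poisson variable -/
def T_CHER : Prop := ∀ (t δ : ℝ), 0 ≤ t → 0 < δ → δ ≤ 1 →
  poissonMeasure t.toNNReal {n : ℕ | δ * t < |(n : ℝ) - t|} ≤
    ENNReal.ofReal (2 * Real.exp (-(δ ^ 2 / 4) * t))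

/-- the series `PL` is the mass of a product of Poisson laws -/
def T_PLM : Prop := ∀ (κ : Type) (_ : Fintype κ) (lam : κ → ℝ) (L : ℝ) (Z : Set (κ → ℕ)),
  (∀ k, 0 < lam k) → 0 ≤ L →
  Measure.pi (fun k => poissonMeasure (lam k * L).toNNReal) Z = ENNReal.ofReal (PL lam L Z)

/-- sums of independent Poisson variables over disjoint groups of indices -/
def T_PSUM : Prop := ∀ (κ κ' : Type) (_ : Fintype κ) (_ : Fintype κ') (lam : κ → NNReal) (f : κ → κ'),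
  (Measure.pi (fun k => poissonMeasure (lam k))).map (fun w k' => ∑ k, if f k = k' then w k else 0) =
    Measure.pi (fun k' => poissonMeasure (∑ k, if f k = k' then lam k else 0))

/-- the rates of the bad windows are bounded below -/
def T_POSA : Prop := ∀ (d q : ℕ) (D : Dat q), 1 ≤ d → ∃ c : ℝ, 0 < c ∧ ∀ N s T : ℕ, Adm D d N s T →
  c * ((N : ℝ) - d) ^ d ≤ wrate D d N s T

end

end Pool.Agent.H96.MC
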