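import Pool.Agent.H96.MC.Targets2

/-!
Targets of the lower bound for every scheme (MP_5da387_pr).
-/

namespace Pool.Agent.H96.MC

open Classical MeasureTheory ProbabilityTheory

noncomputable section

variable {d q : ℕ}

/-- half-open cells of side `h` -/
def hcell (h : ℝ) (v : Cell d) : Set (Sp d) := {x | ∀ l, h * (v l : ℝ) ≤ x l ∧ x l < h * ((v l : ℝ) + 1)}

/-- numbers of points in the cells of side `h` -/
def Scheme.Nc {V : Finset (Fin q → ℕ)} {lam : Fin q → ℝ} (S : Scheme V lam d) (h : ℝ) (ω : S.Ω) :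
    Cfg d q := fun p => (S.Pi p.2 ω ∩ hcell h p.1).ncard

/-- points of `B` in a family of diameter greater than `r` -/
def Scheme.far {V : Finset (Fin q → ℕ)} {lam : Fin q → ℝ} (S : Scheme V lam d) (r : ℝ)
    (B : Set (Sp d)) (ω : S.Ω) : Set (Sp d) :=
  {x | x ∈ B ∧ (∃ i, x ∈ S.Pi i ω) ∧ ∃ G ∈ S.M ω, x ∈ G ∧ r < fdiam G}

/-- the mean number of far points is proportional to the volume -/
def T_NU : Prop := ∀ (d q : ℕ) (D : Dat q) (S : Scheme D.V D.lam d) (r : ℝ) (B : Set (Sp d)), 1 ≤ d →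
  MeasurableSet B → AEMeasurable (fun ω => ((S.far r B ω).encard : ENNReal)) S.P ∧
    ∫⁻ ω, ((S.far r B ω).encard : ENNReal) ∂S.P = volume B * S.tl r ∧
    S.tl r ≤ ENNReal.ofReal (∑ i, D.lam i)

/-- [LCE] cell patterns of the families of a scheme -/
def T_LCE : Prop := ∀ (d q : ℕ) (D : Dat q) (S : Scheme D.V D.lam d) (h r : ℝ) (N : ℕ), 1 ≤ d → 0 < h →
  r ≤ h * ((N : ℝ) - d) → ∀ᵐ ω ∂S.P, ∀ X : Finset (Cell d),
    (∀ v ∈ X, ∀ x ∈ hcell h v, ∀ F ∈ S.M ω, x ∈ F → fdiam F ≤ r) →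
    ∃ μ : Multiset (Pat d q), (∀ u ∈ μ, Fam D.V (N : ℝ) u ∧ ∃ x ∈ u.support, x.1 ∈ X) ∧
      (∀ x, μ.sum x ≤ S.Nc h ω x) ∧ ∀ x : CC d q, x.1 ∈ X → μ.sum x = S.Nc h ω x

/-- [LLW] law of the cell counts -/
def T_LLW : Prop := ∀ (d q : ℕ) (D : Dat q) (S : Scheme D.V D.lam d) (h : ℝ) (W : Finset (CC d q)),
  1 ≤ d → 0 < h → Measurable (fun ω (x : W) => S.Nc h ω x.1) ∧
    S.P.map (fun ω (x : W) => S.Nc h ω x.1) =
      Measure.pi (fun x : W => poissonMeasure (D.lam x.1.2 * h ^ d).toNNReal)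

/-- [LTL] probability of a long family near a finite set of cells -/
def T_LTL : Prop := ∀ (d q : ℕ) (D : Dat q) (S : Scheme D.V D.lam d) (h r : ℝ) (X : Finset (Cell d)),
  1 ≤ d → 0 < h →
  S.P {ω | ∃ v ∈ X, ∃ x ∈ hcell h v, ∃ F ∈ S.M ω, x ∈ F ∧ r < fdiam F} ≤
    (X.card : ENNReal) * ENNReal.ofReal (h ^ d) * S.tl r

/-- lower bound with given window parameters, in dimension `d` -/
def LowSt (d : ℕ) : Prop := ∀ (q : ℕ) (D : Dat q) (S : Scheme D.V D.lam d) (N s T : ℕ),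
  Adm D d N s T → ∀ ε > 0, ∀ᶠ r : ℝ in Filter.atTop,
    ENNReal.ofReal (Real.exp (-(wrate D d N s T / ((N : ℝ) - d) ^ d + ε) * r ^ d)) ≤ S.tl r

/-- [LO2] -/
def T_LO2 : Prop := ∀ d : ℕ, 2 ≤ d → LowSt d

/-- total of the cells `-R ≤ x < b` in dimension one -/
def lft (R : ℕ) (b : ℤ) (n : Cfg 1 q) : Fin q → ℤ :=
  fun i => ∑ x ∈ Finset.Ico (-(R : ℤ)) b, (n ((fun _ => x), i) : ℤ)

/-- [CHN] the classes at all windows of a matched interval are linked by one constant -/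
def T_CHN : Prop := ∀ (q : ℕ) (V : Finset (Fin q → ℕ)) (N s T R : ℕ) (n : Cfg 1 q)
  (μ : Multiset (Pat 1 q)), N ≤ s → s ≤ T → (∀ u ∈ μ, Fam V (N : ℝ) u) → (∀ x, μ.sum x ≤ n x) →
  (∀ x : CC 1 q, sn x.1 ≤ R → μ.sum x = n x) →
  ∃ γ : Fin q → ℤ, ∀ c : ℤ, c.natAbs + T + N + 1 ≤ R →
    Good V N s T (shift (fun _ => c) n) (γ + lft R (c - s) n)

/-- configurations whose bad windows exclude every constant -/
def ChainBad (V : Finset (Fin q → ℕ)) (N s T R : ℕ) : Set (Cfg 1 q) :=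
  {n | ∀ γ : Fin q → ℤ, ∃ c : ℤ, c.natAbs + T + N + 1 ≤ R ∧
    ¬ Good V N s T (shift (fun _ => c) n) (γ + lft R (c - s) n)}

/-- [CLP] classes of Poisson vectors have positive probabilities, uniformly in the mean -/
def T_CLP : Prop := ∀ (q : ℕ) (D : Dat q), ∃ cG : ℝ, 0 < cG ∧ ∀ L : ℝ, 1 ≤ L → ∀ g : Fin q → ℤ,
  ENNReal.ofReal cG ≤ Measure.pi (fun i : Fin q => poissonMeasure (D.lam i * L).toNNReal)
    {u | toZ u - g ∈ Lat D.V}

/-- independence under `poisL` -/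
def T_INDL : Prop := ∀ (d q : ℕ) (D : Dat q) (L : ℝ) (ι : Type) (I : Finset ι)
  (W : ι → Finset (CC d q)) (S : ι → Set (Cfg d q)), (∀ a ∈ I, DetBy (W a) (S a)) →
  (∀ a ∈ I, ∀ b ∈ I, a ≠ b → Disjoint (W a) (W b)) →
  poisL D d L (⋂ a ∈ I, S a) = ∏ a ∈ I, poisL D d L (S a)

/-- [CHA] conditioning: free gap cells reach prescribed classes one after the other -/
def T_CHA : Prop := ∀ (q : ℕ) (D : Dat q) (L cG : ℝ) (B : ℕ) (J : Fin B → Cell 1)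
  (W : Finset (CC 1 q)) (S : Set (Cfg 1 q)) (τ : Fin B → Cfg 1 q → Fin q → ℤ), 1 ≤ L → 0 ≤ cG →
  (∀ g : Fin q → ℤ, ENNReal.ofReal cG ≤
    Measure.pi (fun i : Fin q => poissonMeasure (D.lam i * L).toNNReal) {u | toZ u - g ∈ Lat D.V}) →
  Function.Injective J → (∀ m i, (J m, i) ∉ W) → DetBy W S →
  (∀ m n n', (∀ x ∈ W, n x = n' x) → τ m n = τ m n') →
  ENNReal.ofReal (cG ^ B) * poisL D 1 L S ≤
    poisL D 1 L {n | n ∈ S ∧ ∀ m : Fin B,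
      (∑ m' ∈ Finset.univ.filter (fun m' => m' ≤ m), toZ (fun i => n (J m', i))) - τ m n ∈ Lat D.V}

/-- [CHP] -/
def T_CHP : Prop := ∀ (q : ℕ) (D : Dat q), ∃ cE : ℝ, 0 < cE ∧ ∀ N s T : ℕ, N ≤ s → s ≤ T →
  ∃ Cr : ℝ, ∀ L : ℝ, 1 ≤ L → ∀ p : ℝ, 0 < p →
    p ≤ PL (fun x : win 1 q (T + N) => D.lam x.1.2) L (ZBad 1 D.V N s T) →
    ∃ R : ℕ, (R : ℝ) ≤ Cr / p ∧ ENNReal.ofReal cE ≤ poisL D 1 L (ChainBad D.V N s T R)

/-- [LO1] -/
def T_LO1 : Prop := LowSt 1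

end

end Pool.Agent.H96.MC
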