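import Pool.Agent.H96.MC.Defs4

/-!
Targets of the multiscale construction (MP_5da387_pr).
-/

namespace Pool.Agent.H96.MC

open Classical MeasureTheory ProbabilityTheory

noncomputable section

/-! ### zones -/

/-- components of the owner sets of a family of cubes of bounded radius -/
def T_OWN : Prop := ∀ (d : ℕ) (C : Set (Cell d × ℕ)) (H : ℕ), (∀ p ∈ C, p.2 ≤ H) →
  ∃ Yc : Cell d → Finset (Cell d),
    (∀ b, (∃ p ∈ C, sn (b - p.1) ≤ p.2) → b ∈ Yc b ∧ ∃ p ∈ C, ∀ b' ∈ Yc b, sn (b' - p.1) ≤ p.2) ∧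
    (∀ b, (¬ ∃ p ∈ C, sn (b - p.1) ≤ p.2) → Yc b = ∅) ∧
    (∀ b, Conn (Yc b)) ∧ (∀ b b', b' ∈ Yc b → Yc b' = Yc b) ∧
    (∀ b b₁ b₂, b₁ ∈ Yc b → b₂ ∉ Yc b → ∃ p ∈ C,
      (p.2 ≤ sn (b₁ - p.1) + sn (b₁ - b₂) ∧ sn (b₁ - p.1) ≤ p.2 + sn (b₁ - b₂)) ∧
      (p.2 ≤ sn (b₂ - p.1) + sn (b₁ - b₂) ∧ sn (b₂ - p.1) ≤ p.2 + sn (b₁ - b₂)))

/-- clean radii exist -/
def T_PIG : Prop := ∀ (d q : ℕ) (D : Dat q) (η c₁ : ℝ) (E : ℕ) (P : Par), POK D d η c₁ E P →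
  ∀ (n : Cfg d q) (j : ℕ) (z : Cell d), 1 ≤ j → ¬ FF D P η n j z → ∃ h, Clean D P η n j z h

/-- one more level of zones -/
def T_ZONS : Prop := ∀ (d q : ℕ) (D : Dat q) (η c₁ : ℝ) (E : ℕ) (P : Par), POK D d η c₁ E P →
  ∀ (n : Cfg d q) (J : ℕ) (reg : Cell d → Finset (Cell d)) (lev : Cell d → ℕ),
    (∀ z, ¬ FF D P η n (J + 1) z → ∃ h, Clean D P η n (J + 1) z h) → IsZon D P η n J reg lev →
    ∃ (reg' : Cell d → Finset (Cell d)) (lev' : Cell d → ℕ), IsZon D P η n (J + 1) reg' lev'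

/-- zonings exist -/
def T_ZON : Prop := ∀ (d q : ℕ) (D : Dat q) (η c₁ : ℝ) (E : ℕ) (P : Par), POK D d η c₁ E P →
  ∀ (n : Cfg d q) (J : ℕ), ∃ (reg : Cell d → Finset (Cell d)) (lev : Cell d → ℕ),
    IsZon D P η n J reg lev

/-! ### matching of the regions -/

/-- existence of moves with prescribed totals -/
def T_MOVE : Prop := ∀ (d q : ℕ) (l E : ℕ) (n : Cfg d q) (σ : Cell d → Cell d → Fin q → ℕ), 1 ≤ l →
  (∀ b b' i, σ b b' i ≤ E) → (∀ b b', σ b b' ≠ 0 → Adj b b' ∧ ∀ i, 2 * d * E ≤ bc l n (b, i)) →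
  ∃ o : Cell d → Cell d → Pat d q, Mv l E n o ∧ ∀ b b', tot (o b b') = σ b b'

/-- matching of a base block -/
def T_REGZ : Prop := ∀ (d q : ℕ) (D : Dat q) (η c₁ : ℝ) (E : ℕ) (P : Par), 1 ≤ d →
  ALok D d η c₁ → POK D d η c₁ E P → ∀ (n : Cfg d q) (o : Cell d → Cell d → Pat d q) (x : Cell d),
    Mv (P.l 0) E n o → ¬ FF D P η n 0 x →
    toZ (tot (regP (P.l 0) n o (cellsOf (P.l 0) (bl (P.l 0) x)))) ∈ Lat D.V →
    regP (P.l 0) n o (cellsOf (P.l 0) (bl (P.l 0) x)) ∈ Tl D.V (3 * d * (P.l 0 : ℝ))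

/-- matching of a region of level `j` -/
def T_REGJ : Prop := ∀ (d q : ℕ) (D : Dat q) (η c₁ : ℝ) (E : ℕ) (P : Par), 1 ≤ d →
  ALok D d η c₁ → POK D d η c₁ E P → ∀ (n : Cfg d q) (o : Cell d → Cell d → Pat d q) (j : ℕ)
    (z : Cell d) (Y R : Finset (Cell d)), 1 ≤ j → Mv (P.l 0) E n o → ¬ FF D P η n j z →
    (∀ x ∈ R, ∀ y, bl (P.l 0) x = bl (P.l 0) y → y ∈ R) → Conn Y →
    (∀ b ∈ Y, sn (b - bl (P.l j) z) * P.l j ≤ P.A j) → (∀ y ∈ R, bl (P.l j) y ∈ Y) →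
    (∀ y, bl (P.l j) y ∈ Y → y ∉ R → ∃ y', bl (P.l j) y' ∉ Y ∧ 2 * sn (y - y') ≤ P.w j) →
    (∀ b ∈ Y, ∀ b', b' ∉ Y → sn (b - b') ≤ P.K j → Typ D η (P.w j) (P.l j) n b) →
    toZ (tot (regP (P.l 0) n o R)) ∈ Lat D.V →
    regP (P.l 0) n o R ∈ Tl D.V (P.R d j)

/-- partial matching of a window in which every bad place is resolved -/
def T_WIN : Prop := ∀ (d q : ℕ) (D : Dat q) (η c₁ : ℝ) (E : ℕ) (P : Par), 1 ≤ d →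
  ALok D d η c₁ → ClsE D E → POK D d η c₁ E P → ∀ (n : Cfg d q) (J : ℕ)
    (reg : Cell d → Finset (Cell d)) (lev : Cell d → ℕ), IsZon D P η n J reg lev →
    (∀ z, sn z ≤ P.A (J + 1) → ¬ FF D P η n J z) →
    ∃ μ : Multiset (Pat d q), (∀ x, μ.sum x ≤ n x) ∧
      (∀ x : CC d q, 4 * sn x.1 ≤ P.A (J + 1) → μ.sum x = n x) ∧
      ∀ u ∈ μ, u ≠ 0 ∧ tot u ∈ D.V ∧ (∀ x ∈ u.support, sn x.1 ≤ P.A (J + 1)) ∧
        ∀ x ∈ u.support, ∀ r, Allow D P η n J x.1 r → Fam D.V r u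

/-- labelled matchings -/
def T_LBL : Prop := ∀ (d q : ℕ) (V : Finset (Fin q → ℕ)) (n : Cfg d q) (μ : Multiset (Pat d q)),
  (∀ x, μ.sum x ≤ n x) → (∀ u ∈ μ, u ≠ 0 ∧ tot u ∈ V) →
  ∃ F : Pt d q → Finset (Pt d q), IsMat V (n, F) ∧ (∀ x, (F x).Nonempty ↔ x.2 < μ.sum x.1) ∧
    ∀ x, (F x).Nonempty → ∃ u ∈ μ, x.1 ∈ u.support ∧ ∀ y ∈ F x, y.1 ∈ u.support

/-- locality of the bad events -/
def T_LOC : Prop := ∀ (d q : ℕ) (D : Dat q) (η c₁ : ℝ) (E : ℕ) (P : Par), POK D d η c₁ E P →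
  ∀ (j : ℕ) (z : Cell d) (n n' : Cfg d q),
    (∀ x : CC d q, sn (x.1 - z) ≤ 3 * P.A j → n x = n' x) →
    (FF D P η n j z ↔ FF D P η n' j z)

/-- events which are determined by finitely many counts are measurable -/
def T_FMEAS : Prop := ∀ (d q : ℕ) (W : Finset (CC d q)) (S : Set (Cfg d q)), DetBy W S → MeasurableSet S

/-- measurable labelled partial matchings of finite windows -/
def T_PHI : Prop := ∀ (d q : ℕ) (D : Dat q) (η c₁ : ℝ) (E : ℕ) (P : Par), 1 ≤ d →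
  ALok D d η c₁ → ClsE D E → POK D d η c₁ E P → ∀ J : ℕ,
    ∃ Φ : Cfg d q → Pt d q → Finset (Pt d q), Measurable Φ ∧ (∀ n, IsMat D.V (n, Φ n)) ∧
      (∀ n, (∀ z, sn z ≤ P.A (J + 1) → ¬ FF D P η n J z) →
        ∀ x : Pt d q, 4 * sn x.1.1 ≤ P.A (J + 1) → x.2 < n x.1 → Φ n x ≠ ∅) ∧
      ∀ n, ∀ x : Pt d q, ∀ r, Allow D P η n J x.1.1 r → ¬ Far r (n, Φ n) x

/-! ### probability -/

/-- block counts of the Poisson configuration -/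
def T_BLK : Prop := ∀ (d q : ℕ) (D : Dat q) (l : ℕ), 1 ≤ l →
  (pois D d).map (bc l) = poisL D d ((l : ℝ) ^ d)

/-- translations preserve the Poisson configuration -/
def T_SHI : Prop := ∀ (d q : ℕ) (D : Dat q) (c : Cell d),
  (pois D d).map (shift c) = pois D d ∧ ∀ L : ℝ, (poisL D d L).map (shift c) = poisL D d L

/-- the mass of an event in a window -/
def T_WINP : Prop := ∀ (d q : ℕ) (D : Dat q) (L : ℝ) (W : Finset (CC d q)) (Z : Set (W → ℕ)),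
  0 ≤ L → poisL D d L {m | (fun x : W => m x.1) ∈ Z} =
    ENNReal.ofReal (PL (fun x : W => D.lam x.1.2) L Z)

/-- events determined by disjoint sets of cells are independent -/
def T_INDEP : Prop := ∀ (d q : ℕ) (D : Dat q) (ι : Type) (I : Finset ι) (W : ι → Finset (CC d q))
  (S : ι → Set (Cfg d q)), (∀ a ∈ I, DetBy (W a) (S a)) →
  (∀ a ∈ I, ∀ b ∈ I, a ≠ b → Disjoint (W a) (W b)) →
  pois D d (⋂ a ∈ I, S a) = ∏ a ∈ I, pois D d (S a)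

/-- atypical blocks are unlikely -/
def T_TYP : Prop := ∀ (d q : ℕ) (D : Dat q) (η : ℝ), 1 ≤ d → 0 < η → η ≤ 1 / 2 →
  ∃ (ϖ cT : ℝ) (l₀ : ℕ), 0 < ϖ ∧ ϖ ≤ 1 / 2 ∧ 0 < cT ∧ cT ≤ 1 ∧ ∀ (l w : ℕ), l₀ ≤ l → (w : ℝ) ≤ ϖ * l →
    ∀ b : Cell d, pois D d {n | ¬ Typ D η w l n b} ≤ ENNReal.ofReal (Real.exp (-(cT * (l : ℝ) ^ d)))

/-- reduced bad windows -/
def T_RB : Prop := ∀ (d q : ℕ) (D : Dat q) (η e L : ℝ) (N s T : ℕ), 0 < η → η ≤ 1 / 2 → 0 ≤ e →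
  e ≤ 1 / 2 → 1 ≤ L → poisL D d L (RBs D d η N s T e L) ≤
    ENNReal.ofReal (2 ^ ((2 * T + 1) ^ d * q) *
      Real.exp (e * (2 * (T : ℝ) + 1) ^ d * (∑ i, D.lam i) * L) *
      PL (fun x : win d q (T + N) => D.lam x.1.2) L (ZBad d D.V N s T))

/-- constants for a single value of `N` -/
def T_STAGE : Prop := ∀ (d q : ℕ) (D : Dat q) (η c₁ cT : ℝ), 1 ≤ d → ALok D d η c₁ → 0 < cT →
  ∃ (n0 : ℕ → ℕ) (e : ℕ → ℝ) (lst : ℕ → ℕ), ∀ N : ℕ, d + 2 ≤ N →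
    2 * (aconst D d + 1) * ((N : ℝ) + d + 1) ^ d ≤ cT * (n0 N + 1) ∧
    ∀ l : ℕ, lst N ≤ l →
      RLok D d η N (n0 N) (e N) (sF η (e N) N (n0 N)) (TF η (e N) N (n0 N))
        (KF η (e N) N (n0 N)) ((l : ℝ) ^ d) ∧
      ∀ i ≤ n0 N, poisL D d ((l : ℝ) ^ d)
          (RBs D d η N (sF η (e N) N (n0 N) i) (TF η (e N) N (n0 N) i) (e N) ((l : ℝ) ^ d)) ≤
        ENNReal.ofReal (Real.exp (-((aconst D d * ((N : ℝ) - d) ^ d - 3) * (l : ℝ) ^ d)))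

/-- many atypical blocks are unlikely -/
def T_GP1 : Prop := ∀ (d q : ℕ) (D : Dat q) (η : ℝ) (w l A n0 : ℕ) (p : ℝ) (z : Cell d), 1 ≤ l → 0 ≤ p →
  (∀ b : Cell d, pois D d {n | ¬ Typ D η w l n b} ≤ ENNReal.ofReal p) →
  pois D d {n | ¬ ({b : Cell d | sn (b - bl l z) * l ≤ 2 * A ∧ ¬ Typ D η w l n b}.ncard ≤ n0)} ≤
    ENNReal.ofReal (((4 * (A : ℝ) + 1) ^ d * p) ^ (n0 + 1))

/-- reduced bad windows somewhere in a cube are unlikely -/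
def T_GP2 : Prop := ∀ (d q : ℕ) (D : Dat q) (η e : ℝ) (w l A n0 N : ℕ) (s T : ℕ → ℕ) (p : ℝ)
  (z : Cell d), 1 ≤ l → 0 ≤ p →
  (∀ i ≤ n0, poisL D d ((l : ℝ) ^ d) (RBs D d η N (s i) (T i) e ((l : ℝ) ^ d)) ≤ ENNReal.ofReal p) →
  pois D d {n | ¬ (∀ c : Cell d, sn (c - bl l z) * l ≤ 2 * A → ∀ i ≤ n0,
      (∀ b, s i < sn (b - c) → sn (b - c) ≤ T i + N → Typ D η w l n b) →
      ∀ g, Good D.V N (s i) (T i) (red e (s i) (T i) (shift c (bc l n))) g)} ≤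
    ENNReal.ofReal (((n0 : ℝ) + 1) * (4 * (A : ℝ) + 1) ^ d * p)

/-- many separated bad places of one level are unlikely -/
def T_GP3 : Prop := ∀ (d q : ℕ) (D : Dat q) (S : Cell d → Set (Cfg d q)) (A A' m : ℕ) (p : ℝ)
  (z : Cell d), 1 ≤ A → 0 ≤ p → (∀ x, DetBy (cube x (3 * A) ×ˢ Finset.univ) (S x)) →
  (∀ x, pois D d (S x) ≤ ENNReal.ofReal p) →
  pois D d {n | ¬ (∀ F : Finset (Cell d), (∀ x ∈ F, sn (x - z) ≤ 2 * A' ∧ n ∈ S x) →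
      (∀ x ∈ F, ∀ y ∈ F, x ≠ y → 10 * A ≤ sn (x - y)) → F.card ≤ m)} ≤
    ENNReal.ofReal (((4 * (A' : ℝ) + 1) ^ d * p) ^ (m + 1))

/-- probabilistic conditions on the parameters -/
structure PPR {q : ℕ} (D : Dat q) (d : ℕ) (η a cT : ℝ) (P : Par) (θ β : ℕ → ℝ) : Prop where
  zero : θ 0 ≤ cT * (P.l 0 : ℝ) ^ d
  typ : ∀ j, ∀ b : Cell d, pois D d {n | ¬ Typ D η (P.w j) (P.l j) n b} ≤
    ENNReal.ofReal (Real.exp (-(cT * (P.l j : ℝ) ^ d)))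
  rb : ∀ j, 1 ≤ j → ∀ i ≤ P.n0 j, poisL D d ((P.l j : ℝ) ^ d)
      (RBs D d η (P.N j) (P.s j i) (P.T j i) (P.e j) ((P.l j : ℝ) ^ d)) ≤
    ENNReal.ofReal (Real.exp (-(β j)))
  num : ∀ j, 1 ≤ j → ((4 * (P.A j : ℝ) + 1) ^ d * Real.exp (-(cT * (P.l j : ℝ) ^ d))) ^ (P.n0 j + 1) +
      ((P.n0 j : ℝ) + 1) * (4 * (P.A j : ℝ) + 1) ^ d * Real.exp (-(β j)) +
      ∑ k ∈ Finset.Ico (P.k0 j) j, ((4 * (P.A j : ℝ) + 1) ^ d * Real.exp (-(θ k))) ^ (P.kap j k + 1) ≤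
    Real.exp (-(θ j))
  q2 : Filter.Tendsto (fun J => (2 * (P.A (J + 1) : ℝ) + 1) ^ d * Real.exp (-(θ J))) Filter.atTop (nhds 0)
  q3 : ∀ ε > 0, ∀ᶠ r : ℝ in Filter.atTop, ∀ J : ℕ,
    ∑ j ∈ (Finset.Icc 1 J).filter (fun j => r < P.R d j),
      (2 * (P.A j : ℝ) + 1) ^ d * Real.exp (-(θ (j - 1))) ≤ Real.exp (-(a - ε) * r ^ d)

/-- the recursion for the probabilities of the bad events -/
def T_REC : Prop := ∀ (d q : ℕ) (D : Dat q) (η c₁ a cT : ℝ) (E : ℕ) (P : Par) (θ β : ℕ → ℝ), 1 ≤ d →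
  POK D d η c₁ E P → PPR D d η a cT P θ β → ∀ j (z : Cell d),
    pois D d {n | FF D P η n j z} ≤ ENNReal.ofReal (Real.exp (-(θ j)))

/-- number of points on an event -/
def T_CNT : Prop := ∀ (d q : ℕ) (D : Dat q), ∃ C : ℝ, 0 ≤ C ∧ ∀ (c : Cell d) (S : Set (Cfg d q)) (k : ℕ),
  MeasurableSet S → ∫⁻ n in S, ((∑ i : Fin q, n (c, i) : ℕ) : ENNReal) ∂(pois D d) ≤
    (k : ENNReal) * pois D d S + ENNReal.ofReal (C * (1 / 2) ^ k)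

/-- parameters exist -/
def T_PAR : Prop := ∀ (d q : ℕ) (D : Dat q) (η c₁ : ℝ) (E : ℕ), 1 ≤ d → ALok D d η c₁ →
  ∃ (P : Par) (cT : ℝ) (θ β : ℕ → ℝ), POK D d η c₁ E P ∧ PPR D d η (aconst D d) cT P θ β

end

end Pool.Agent.H96.MC
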