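import Pool.Agent.H96.MC.Targets2

/-!
Targets on the choice of the parameters (MP_5da387_pr).
-/

namespace Pool.Agent.H96.MC

open Classical Filter

noncomputable section

/-- slow sequences: `Nf` starts with `Ns`, makes steps 0 or 1, tends to infinity, and reaches a value
`N > Ns` only after the time `τ N` -/
def Slow (Ns : ℕ) (τ Nf : ℕ → ℕ) : Prop :=
  Monotone Nf ∧ Nf 0 = Ns ∧ (∀ j, Nf (j + 1) ≤ Nf j + 1) ∧ Tendsto Nf atTop atTop ∧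
    ∀ j, Nf j = Ns ∨ τ (Nf j) ≤ j

/-- slow sequences exist -/
def T_SLOW : Prop := ∀ (Ns : ℕ) (τ : ℕ → ℕ), ∃ Nf, Slow Ns τ Nf

/-- block sides -/
def lS (l0 m j : ℕ) : ℕ := if j = 0 then l0 else l0 * ⌈(m : ℝ) * Real.exp (Real.sqrt j)⌉₊

/-- zone sizes -/
def AS (l0 C j : ℕ) : ℕ := 16 * l0 * C ^ j

/-- shell widths -/
def wS (ϖ : ℝ) (l0 m j : ℕ) : ℕ := if j = 0 then 0 else ⌊ϖ * (lS l0 m j : ℝ)⌋₊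

/-- first relevant lower level -/
def k0S (ϖ : ℝ) (m C j : ℕ) : ℕ :=
  Nat.findGreatest (fun k => 128 * (C : ℝ) ^ k ≤ ϖ * (m : ℝ) * Real.exp (Real.sqrt j)) j

/-- exponents -/
def thS (a cT : ℝ) (d l0 m : ℕ) (Nf : ℕ → ℕ) (j : ℕ) : ℝ :=
  if j = 0 then cT * (l0 : ℝ) ^ d else (a * ((Nf j : ℝ) - d) ^ d - 4) * (lS l0 m j : ℝ) ^ d

/-- numbers of separated bad places -/
def kapS (a cT : ℝ) (d l0 m : ℕ) (Nf : ℕ → ℕ) (j k : ℕ) : ℕ :=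
  ⌈2 * (thS a cT d l0 m Nf j + Real.log (3 * ((j : ℝ) + 1))) / thS a cT d l0 m Nf k⌉₊

/-- common form of the statements on the parameters: `X` holds if the constants are chosen large
enough one after the other -/
def Largely (X : (Ns m C l0 : ℕ) → (ℕ → ℕ) → Prop) : Prop :=
  ∀ᶠ Ns : ℕ in atTop, ∀ᶠ m : ℕ in atTop, ∀ᶠ C : ℕ in atTop, ∀ᶠ l0 : ℕ in atTop,
    ∃ τ : ℕ → ℕ, ∀ Nf, Slow Ns τ Nf → X Ns m C l0 Nf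

/-- elementary inequalities -/
def T_NUMA : Prop := ∀ (d : ℕ) (ϖ : ℝ) (K lst : ℕ → ℕ), 1 ≤ d → 0 < ϖ → ϖ ≤ 1 / 2 →
  Largely (fun _ m C l0 Nf =>
    (∀ j, 1 ≤ lS l0 m j) ∧ (∀ j, l0 ∣ lS l0 m j) ∧ (∀ j, 16 * lS l0 m j ≤ AS l0 C j) ∧
    (∀ j, 64 * AS l0 C j ≤ AS l0 C (j + 1)) ∧
    ∀ j, 1 ≤ j → lst (Nf j) ≤ lS l0 m j ∧ 8 * d * l0 ≤ lS l0 m j ∧ k0S ϖ m C j < j ∧
      4 * AS l0 C (k0S ϖ m C j) + 4 * l0 ≤ wS ϖ l0 m j ∧ wS ϖ l0 m j + 4 * l0 ≤ lS l0 m j ∧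
      8 * ((K (Nf j) + 2) * lS l0 m j) ≤ AS l0 C j)

/-- exponents of the relevant lower levels dominate the entropy -/
def T_NUMB : Prop := ∀ (d : ℕ) (a cT ϖ : ℝ), 1 ≤ d → 0 < a → 0 < cT → cT ≤ 1 → 0 < ϖ → ϖ ≤ 1 / 2 →
  Largely (fun _ m C l0 Nf => ∀ j, 1 ≤ j → ∀ k, k0S ϖ m C j ≤ k → k < j →
    0 < thS a cT d l0 m Nf k ∧
    (4 * (AS l0 C j : ℝ) + 1) ^ d ≤ Real.exp (thS a cT d l0 m Nf k / 2))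

/-- the pigeonhole inequality -/
def T_NUMC : Prop := ∀ (d : ℕ) (a cT ϖ : ℝ) (n0 K : ℕ → ℕ), 1 ≤ d → 0 < a → 0 < cT → cT ≤ 1 →
  0 < ϖ → ϖ ≤ 1 / 2 →
  Largely (fun _ m C l0 Nf => ∀ j, 1 ≤ j → n0 (Nf j) * (2 * K (Nf j) + 3) +
    ∑ k ∈ Finset.Ico (k0S ϖ m C j) j, kapS a cT d l0 m Nf j k *
      (2 * (10 * AS l0 C k / lS l0 m j + AS l0 C (min (k + 1) (j - 1)) / lS l0 m j + K (Nf j) + 5) + 1) <
      AS l0 C j / (4 * lS l0 m j))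

/-- the recursion inequality -/
def T_NUMD : Prop := ∀ (d : ℕ) (a cT ϖ : ℝ) (n0 : ℕ → ℕ), 1 ≤ d → 0 < a → 0 < cT → cT ≤ 1 →
  0 < ϖ → ϖ ≤ 1 / 2 →
  (∀ N : ℕ, d + 2 ≤ N → 2 * (a + 1) * ((N : ℝ) + d + 1) ^ d ≤ cT * (n0 N + 1)) →
  Largely (fun _ m C l0 Nf =>
    (∀ j, 1 ≤ j → ∀ k, k0S ϖ m C j ≤ k → k < j → 0 < thS a cT d l0 m Nf k ∧
      (4 * (AS l0 C j : ℝ) + 1) ^ d ≤ Real.exp (thS a cT d l0 m Nf k / 2)) →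
    ∀ j, 1 ≤ j →
      ((4 * (AS l0 C j : ℝ) + 1) ^ d * Real.exp (-(cT * (lS l0 m j : ℝ) ^ d))) ^ (n0 (Nf j) + 1) +
      ((n0 (Nf j) : ℝ) + 1) * (4 * (AS l0 C j : ℝ) + 1) ^ d *
        Real.exp (-((a * ((Nf j : ℝ) - d) ^ d - 3) * (lS l0 m j : ℝ) ^ d)) +
      ∑ k ∈ Finset.Ico (k0S ϖ m C j) j, ((4 * (AS l0 C j : ℝ) + 1) ^ d *
        Real.exp (-(thS a cT d l0 m Nf k))) ^ (kapS a cT d l0 m Nf j k + 1) ≤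
      Real.exp (-(thS a cT d l0 m Nf j)))

/-- the tail sums -/
def T_NUME : Prop := ∀ (d : ℕ) (a cT : ℝ), 1 ≤ d → 0 < a → 0 < cT → cT ≤ 1 →
  Largely (fun _ m C l0 Nf =>
    Tendsto (fun J => (2 * (AS l0 C (J + 1) : ℝ) + 1) ^ d * Real.exp (-(thS a cT d l0 m Nf J)))
      atTop (nhds 0) ∧
    ∀ ε > 0, ∀ᶠ r : ℝ in atTop, ∀ J : ℕ,
      ∑ j ∈ (Finset.Icc 1 J).filter (fun j => r < (lS l0 m j : ℝ) * ((Nf j : ℝ) + d + 1)),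
        (2 * (AS l0 C j : ℝ) + 1) ^ d * Real.exp (-(thS a cT d l0 m Nf (j - 1))) ≤
      Real.exp (-(a - ε) * r ^ d))

end

end Pool.Agent.H96.MC
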