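import Pool.Agent.H96.MC.Defs3

/-!
Basic lemmas on cells, blocks and patterns.
-/

namespace Pool.Agent.H96.MC

open Classical

noncomputable section

variable {d q : ℕ}

/-! ### sup norm -/

lemma natAbs_le_sn (z : Cell d) (i : Fin d) : (z i).natAbs ≤ sn z :=
  Finset.le_sup (f := fun i => (z i).natAbs) (Finset.mem_univ i)

lemma sn_le_iff {z : Cell d} {T : ℕ} : sn z ≤ T ↔ ∀ i, (z i).natAbs ≤ T := by
  simp [sn, Finset.sup_le_iff]

lemma sn_zero : sn (0 : Cell d) = 0 := by
  have : sn (0 : Cell d) ≤ 0 := sn_le_iff.2 (fun i => by simp)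
  omega

lemma sn_neg (z : Cell d) : sn (-z) = sn z := by simp [sn]

lemma sn_sub_comm (a b : Cell d) : sn (a - b) = sn (b - a) := by
  rw [← sn_neg, neg_sub]

lemma sn_add_le (a b : Cell d) : sn (a + b) ≤ sn a + sn b := by
  rw [sn_le_iff]
  intro i
  have h1 := natAbs_le_sn a i
  have h2 := natAbs_le_sn b i
  have : (a + b) i = a i + b i := rfl
  omega

lemma sn_sub_le (a b c : Cell d) : sn (a - c) ≤ sn (a - b) + sn (b - c) := by
  have := sn_add_le (a - b) (b - c)
  simpa using this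

lemma sn_eq_zero {z : Cell d} : sn z = 0 ↔ z = 0 := by
  constructor
  · intro h
    funext i
    have := natAbs_le_sn z i
    simp only [Pi.zero_apply]
    omega
  · rintro rfl
    exact sn_zero

lemma mem_cube {c b : Cell d} {T : ℕ} : b ∈ cube c T ↔ sn (b - c) ≤ T := by
  simp only [cube, Fintype.mem_piFinset, Finset.mem_Icc, sn_le_iff, Pi.sub_apply]
  constructor
  · intro h i
    have := h i
    omega
  · intro h i
    have := h i
    omega

/-! ### Euclidean norm -/

lemma nrm_nonneg (z : Cell d) : 0 ≤ nrm z := Real.sqrt_nonneg _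

lemma nrm_eq_norm (z : Cell d) :
    nrm z = ‖(WithLp.toLp 2 (fun i => (z i : ℝ)) : EuclideanSpace ℝ (Fin d))‖ := by
  rw [EuclideanSpace.norm_eq, nrm]
  simp

lemma nrm_neg (z : Cell d) : nrm (-z) = nrm z := by
  simp [nrm]

lemma nrm_sub_comm (a b : Cell d) : nrm (a - b) = nrm (b - a) := by
  rw [← nrm_neg, neg_sub]

lemma nrm_add_le (a b : Cell d) : nrm (a + b) ≤ nrm a + nrm b := by
  rw [nrm_eq_norm, nrm_eq_norm, nrm_eq_norm]
  refine le_trans (le_of_eq ?_) (norm_add_le _ _)
  congr 1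
  ext i
  simp

lemma nrm_sub_le (a b c : Cell d) : nrm (a - c) ≤ nrm (a - b) + nrm (b - c) := by
  have := nrm_add_le (a - b) (b - c)
  simpa using this

lemma nrm_zero : nrm (0 : Cell d) = 0 := by simp [nrm]

lemma nrm_le_mul {z : Cell d} {t : ℝ} (ht : 0 ≤ t) (h : ∀ i, |(z i : ℝ)| ≤ t) :
    nrm z ≤ d * t := by
  rw [nrm]
  have h1 : ∑ i, ((z i : ℝ)) ^ 2 ≤ ((d : ℝ) * t) ^ 2 := by
    calc ∑ i, ((z i : ℝ)) ^ 2 ≤ ∑ _i : Fin d, t ^ 2 := by
          apply Finset.sum_le_sum
          intro i _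
          have := h i
          rw [← sq_abs]
          exact pow_le_pow_left₀ (abs_nonneg _) this 2
      _ = d * t ^ 2 := by simp
      _ ≤ ((d : ℝ) * t) ^ 2 := by
          rw [mul_pow]
          apply mul_le_mul_of_nonneg_right _ (sq_nonneg _)
          have : (d : ℝ) ≤ (d : ℝ) ^ 2 := by
            exact_mod_cast Nat.le_self_pow (by norm_num) d
          exact this
  calc Real.sqrt (∑ i, ((z i : ℝ)) ^ 2) ≤ Real.sqrt (((d : ℝ) * t) ^ 2) := Real.sqrt_le_sqrt h1
    _ = d * t := Real.sqrt_sq (by positivity)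

lemma nrm_le_sn (z : Cell d) : nrm z ≤ d * sn z := by
  apply nrm_le_mul (by positivity)
  intro i
  have h := natAbs_le_sn z i
  have h2 : |(z i : ℝ)| = ((z i).natAbs : ℝ) := by
    rw [Nat.cast_natAbs, Int.cast_abs]
  rw [h2]
  exact_mod_cast h

lemma abs_le_nrm (z : Cell d) (i : Fin d) : |(z i : ℝ)| ≤ nrm z := by
  rw [nrm]
  apply Real.le_sqrt_of_sq_le
  rw [sq_abs]
  exact Finset.single_le_sum (f := fun i => ((z i : ℝ)) ^ 2) (fun j _ => sq_nonneg _)
    (Finset.mem_univ i)

lemma sn_le_nrm (z : Cell d) : (sn z : ℝ) ≤ nrm z := by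
  by_contra h
  push Not at h
  have h1 : sn z ≤ ⌊nrm z⌋₊ := by
    rw [sn_le_iff]
    intro i
    apply Nat.le_floor
    have := abs_le_nrm z i
    have h2 : ((z i).natAbs : ℝ) = |(z i : ℝ)| := by
      rw [Nat.cast_natAbs, Int.cast_abs]
    rw [h2]
    exact this
  have h2 : ((⌊nrm z⌋₊ : ℕ) : ℝ) ≤ nrm z := Nat.floor_le (nrm_nonneg z)
  have h3 : (sn z : ℝ) ≤ ((⌊nrm z⌋₊ : ℕ) : ℝ) := by exact_mod_cast h1
  linarith

/-! ### blocks -/

lemma mem_cellsOf {l : ℕ} (hl : 1 ≤ l) {z b : Cell d} : z ∈ cellsOf l b ↔ bl l z = b := by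
  simp only [cellsOf, Fintype.mem_piFinset, Finset.mem_Ico]
  have hl' : (0 : ℤ) < l := by exact_mod_cast hl
  constructor
  · intro h
    funext i
    have := h i
    simp only [bl]
    rw [Int.ediv_eq_iff_of_pos hl']
    constructor
    · nlinarith [this.1]
    · nlinarith [this.2]
  · rintro rfl i
    simp only [bl]
    have h1 := Int.emod_add_mul_ediv (z i) l
    have h2 := Int.emod_nonneg (z i) (ne_of_gt hl')
    have h3 := Int.emod_lt_of_pos (z i) hl'
    constructor
    · linarith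
    · linarith

lemma mem_cellsOf_bl {l : ℕ} (hl : 1 ≤ l) (z : Cell d) : z ∈ cellsOf l (bl l z) :=
  (mem_cellsOf hl).2 rfl

lemma card_cellsOf (l : ℕ) (b : Cell d) : (cellsOf l b).card = l ^ d := by
  simp [cellsOf, Fintype.card_piFinset]

/-- coordinates inside the block -/
lemma bl_bounds {l : ℕ} (hl : 1 ≤ l) (z : Cell d) (i : Fin d) :
    (l : ℤ) * bl l z i ≤ z i ∧ z i < (l : ℤ) * bl l z i + l := by
  have := mem_cellsOf_bl hl z
  simp only [cellsOf, Fintype.mem_piFinset, Finset.mem_Ico] at this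
  exact this i

lemma bl_sub_bounds {l : ℕ} (hl : 1 ≤ l) (x y : Cell d) (i : Fin d) :
    (l : ℤ) * (bl l x - bl l y) i - l < (x - y) i ∧
      (x - y) i < (l : ℤ) * (bl l x - bl l y) i + l := by
  have h1 := bl_bounds hl x i
  have h2 := bl_bounds hl y i
  simp only [Pi.sub_apply]
  constructor
  · nlinarith [h1.1, h1.2, h2.1, h2.2]
  · nlinarith [h1.1, h1.2, h2.1, h2.2]

lemma sn_bl_mul_le {l : ℕ} (hl : 1 ≤ l) (x y : Cell d) :
    sn (bl l x - bl l y) * l ≤ sn (x - y) + l := by
  rcases Nat.eq_zero_or_pos (sn (bl l x - bl l y)) with h0 | h0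
  · rw [h0]; omega
  obtain ⟨i, -, hi⟩ : ∃ i ∈ (Finset.univ : Finset (Fin d)),
      sn (bl l x - bl l y) = ((bl l x - bl l y) i).natAbs := by
    apply Finset.exists_mem_eq_sup
    by_contra hne
    rw [Finset.not_nonempty_iff_eq_empty] at hne
    simp [sn, hne] at h0
  have h1 := bl_sub_bounds hl x y i
  have h2 := natAbs_le_sn (x - y) i
  rw [hi]
  have hl' : (0 : ℤ) < l := by exact_mod_cast hl
  zify at h2 ⊢
  rcases abs_cases ((bl l x - bl l y) i) with ⟨h3, h4⟩ | ⟨h3, h4⟩
  · rw [h3]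
    have h5 : (x - y) i ≤ |(x - y) i| := le_abs_self _
    nlinarith [h1.1, h1.2]
  · rw [h3]
    have h5 : -(x - y) i ≤ |(x - y) i| := neg_le_abs _
    nlinarith [h1.1, h1.2]

lemma sn_le_bl {l : ℕ} (hl : 1 ≤ l) (x y : Cell d) :
    sn (x - y) ≤ l * sn (bl l x - bl l y) + l := by
  rw [sn_le_iff]
  intro i
  have h1 := bl_sub_bounds hl x y i
  have h2 := natAbs_le_sn (bl l x - bl l y) i
  have hl' : (0 : ℤ) < l := by exact_mod_cast hl
  zify at h2 ⊢
  rw [abs_le] at h2 ⊢
  constructor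
  · nlinarith [h1.1, h1.2, h2.1, h2.2]
  · nlinarith [h1.1, h1.2, h2.1, h2.2]

/-- Euclidean distances of cells and of their blocks -/
lemma nrm_le_bl {l : ℕ} (hl : 1 ≤ l) (x y : Cell d) :
    nrm (x - y) ≤ l * (nrm (bl l x - bl l y) + d) := by
  set w : Cell d := fun i => (x - y) i - (l : ℤ) * (bl l x - bl l y) i with hw
  have h1 : nrm w ≤ d * l := by
    apply nrm_le_mul (by positivity)
    intro i
    have := bl_sub_bounds hl x y i
    rw [← Int.cast_abs]
    have h2 : |w i| ≤ (l : ℤ) := by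
      rw [abs_le, hw]
      constructor
      · linarith [this.1]
      · linarith [this.2]
    exact_mod_cast h2
  have h2 : nrm (fun i => (l : ℤ) * (bl l x - bl l y) i) = l * nrm (bl l x - bl l y) := by
    have h0 : ∑ i, ((((l : ℤ) * (bl l x - bl l y) i : ℤ) : ℝ)) ^ 2 =
        (l : ℝ) ^ 2 * ∑ i, (((bl l x - bl l y) i : ℝ)) ^ 2 := by
      rw [Finset.mul_sum]
      apply Finset.sum_congr rfl
      intro i _
      push_cast
      ring
    simp only [nrm]
    rw [h0, Real.sqrt_mul (sq_nonneg _), Real.sqrt_sq (Nat.cast_nonneg l : (0 : ℝ) ≤ l)]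
  have h3 : x - y = w + (fun i => (l : ℤ) * (bl l x - bl l y) i) := by
    funext i
    simp [hw]
  calc nrm (x - y) ≤ nrm w + nrm (fun i => (l : ℤ) * (bl l x - bl l y) i) := by
        conv_lhs => rw [h3]
        exact nrm_add_le _ _
    _ ≤ d * l + l * nrm (bl l x - bl l y) := by rw [h2]; linarith
    _ = l * (nrm (bl l x - bl l y) + d) := by ring

lemma bl_nrm_le {l : ℕ} (hl : 1 ≤ l) (x y : Cell d) :
    l * nrm (bl l x - bl l y) ≤ nrm (x - y) + l * d := by
  set w : Cell d := fun i => (l : ℤ) * (bl l x - bl l y) i - (x - y) i with hw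
  have h1 : nrm w ≤ d * l := by
    apply nrm_le_mul (by positivity)
    intro i
    have := bl_sub_bounds hl x y i
    rw [← Int.cast_abs]
    have h2 : |w i| ≤ (l : ℤ) := by
      rw [abs_le, hw]
      constructor
      · linarith [this.2]
      · linarith [this.1]
    exact_mod_cast h2
  have h2 : nrm (fun i => (l : ℤ) * (bl l x - bl l y) i) = l * nrm (bl l x - bl l y) := by
    have h0 : ∑ i, ((((l : ℤ) * (bl l x - bl l y) i : ℤ) : ℝ)) ^ 2 =
        (l : ℝ) ^ 2 * ∑ i, (((bl l x - bl l y) i : ℝ)) ^ 2 := by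
      rw [Finset.mul_sum]
      apply Finset.sum_congr rfl
      intro i _
      push_cast
      ring
    simp only [nrm]
    rw [h0, Real.sqrt_mul (sq_nonneg _), Real.sqrt_sq (Nat.cast_nonneg l : (0 : ℝ) ≤ l)]
  have h3 : (fun i => (l : ℤ) * (bl l x - bl l y) i) = w + (x - y) := by
    funext i
    simp [hw]
  rw [← h2, h3]
  have := nrm_add_le w (x - y)
  nlinarith [this, h1]

/-! ### patterns -/

lemma rst_apply (n : Cfg d q) (P : Finset (Cell d)) (x : CC d q) :
    rst n P x = if x.1 ∈ P then n x else 0 := rfl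

lemma tot_zero : tot (0 : Pat d q) = 0 := by
  funext i; simp [tot]

lemma tot_add (u v : Pat d q) : tot (u + v) = tot u + tot v := by
  funext i
  simp only [tot, Pi.add_apply]
  rw [Finsupp.sum_add_index']
  · intro a; simp
  · intro a b c; split_ifs <;> simp

/-- `tot` as a homomorphism -/
def totHom (d q : ℕ) : Pat d q →+ (Fin q → ℕ) where
  toFun := tot
  map_zero' := tot_zero
  map_add' := tot_add

lemma tot_multiset_sum (μ : Multiset (Pat d q)) : tot μ.sum = (μ.map tot).sum := by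
  have := map_multiset_sum (totHom d q) μ
  exact this

lemma tot_single (x : CC d q) (k : ℕ) : tot (Finsupp.single x k : Pat d q) = Pi.single x.2 k := by
  funext i
  simp only [tot]
  rw [Finsupp.sum_single_index (by simp)]
  simp only [Pi.single_apply]
  by_cases h : x.2 = i
  · simp [h]
  · rw [if_neg h, if_neg (fun h' => h h'.symm)]

lemma push_add (g : Cell d → Cell d) (u v : Pat d q) : push g (u + v) = push g u + push g v :=
  Finsupp.mapDomain_add

lemma push_zero (g : Cell d → Cell d) : push g (0 : Pat d q) = 0 := Finsupp.mapDomain_zero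

lemma push_single (g : Cell d → Cell d) (x : CC d q) (k : ℕ) :
    push g (Finsupp.single x k) = Finsupp.single (g x.1, x.2) k := Finsupp.mapDomain_single

lemma tot_push (g : Cell d → Cell d) (u : Pat d q) : tot (push g u) = tot u := by
  induction u using Finsupp.induction_linear with
  | zero => rw [push_zero]
  | add f g hf hg => rw [push_add, tot_add, tot_add, hf, hg]
  | single a b => rw [push_single, tot_single, tot_single]

lemma toZ_add (x y : Fin q → ℕ) : toZ (x + y) = toZ x + toZ y := by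
  funext i; simp [toZ]

lemma toZ_zero : toZ (0 : Fin q → ℕ) = 0 := by funext i; simp [toZ]

lemma closure_toZ {V : Finset (Fin q → ℕ)} {x : Fin q → ℕ}
    (h : x ∈ AddSubmonoid.closure (V : Set (Fin q → ℕ))) : toZ x ∈ Lat V := by
  induction h using AddSubmonoid.closure_induction with
  | mem x hx => exact AddSubgroup.subset_closure ⟨x, hx, rfl⟩
  | zero => rw [toZ_zero]; exact (Lat V).zero_mem
  | add x y _ _ h1 h2 => rw [toZ_add]; exact (Lat V).add_mem h1 h2

lemma Tl_tot {V : Finset (Fin q → ℕ)} {r : ℝ} {u : Pat d q} (h : u ∈ Tl V r) :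
    tot u ∈ AddSubmonoid.closure (V : Set (Fin q → ℕ)) := by
  induction h using AddSubmonoid.closure_induction with
  | mem x hx => exact AddSubmonoid.subset_closure hx.2.1
  | zero => rw [tot_zero]; exact AddSubmonoid.zero_mem _
  | add x y _ _ h1 h2 => rw [tot_add]; exact AddSubmonoid.add_mem _ h1 h2

lemma Fam_mono {V : Finset (Fin q → ℕ)} {r r' : ℝ} (h : r ≤ r') {u : Pat d q} (hu : Fam V r u) :
    Fam V r' u := ⟨hu.1, hu.2.1, fun x hx y hy => (hu.2.2 x hx y hy).trans h⟩

lemma Tl_mono {V : Finset (Fin q → ℕ)} {r r' : ℝ} (h : r ≤ r') :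
    (Tl V r : AddSubmonoid (Pat d q)) ≤ Tl V r' :=
  AddSubmonoid.closure_mono (fun _ hu => Fam_mono h hu)

/-- elements of `Tl` are sums of multisets of families -/
lemma Tl_exists {V : Finset (Fin q → ℕ)} {r : ℝ} {u : Pat d q} (h : u ∈ Tl V r) :
    ∃ μ : Multiset (Pat d q), (∀ v ∈ μ, Fam V r v) ∧ μ.sum = u :=
  AddSubmonoid.exists_multiset_of_mem_closure h

/-- the bad event of level `j + 1` -/
lemma Fseq_eq (D : Dat q) (P : Par) (η : ℝ) (n : Cfg d q) {j k : ℕ} (h : k ≤ j) (z : Cell d) :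
    Fseq D P η n j k z ↔ FF D P η n k z := by
  induction j with
  | zero =>
    have : k = 0 := by omega
    subst this
    rfl
  | succ j ih =>
    rcases Nat.lt_or_ge j k with h1 | h1
    · have : k = j + 1 := by omega
      subst this
      rfl
    · have : Fseq D P η n (j + 1) k z ↔ Fseq D P η n j k z := by
        simp only [Fseq, if_pos h1]
      rw [this]
      exact ih h1

lemma FF_zero (D : Dat q) (P : Par) (η : ℝ) (n : Cfg d q) (z : Cell d) :
    FF D P η n 0 z ↔ ¬ Typ D η (P.w 0) (P.l 0) n (bl (P.l 0) z) := Iff.rfl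

lemma FF_succ (D : Dat q) (P : Par) (η : ℝ) (n : Cfg d q) (j : ℕ) (z : Cell d) :
    FF D P η n (j + 1) z ↔ ¬ GG D P η n (j + 1) z (FF D P η n) := by
  have h1 : FF D P η n (j + 1) z ↔ ¬ GG D P η n (j + 1) z (Fseq D P η n j) := by
    simp only [FF, Fseq, if_neg (show ¬ (j + 1 ≤ j) by omega)]
  rw [h1, not_iff_not]
  unfold GG
  refine and_congr Iff.rfl (and_congr Iff.rfl ?_)
  refine forall_congr' fun k => forall_congr' fun _ => forall_congr' fun hk =>
    forall_congr' fun S => ?_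
  have : ∀ x, Fseq D P η n j k x ↔ FF D P η n k x := fun x => Fseq_eq D P η n (by omega) x
  simp only [this]

end

end Pool.Agent.H96.MC
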