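import Pool.Agent.H89.MC.Targets

/-! Module ASY (MP_5da387_pr). -/

namespace Pool.Agent.H96.MC.ASY

open Pool.Agent.H96.MC Filter

theorem asy : T_ASY := by
  intro a ε c C d hd hε hC
  have hb : Tendsto (fun r : ℝ => (a - ε / 2) * (1 - c / r) ^ d - (a - ε)) atTop
      (nhds ((a - ε / 2) * (1 - 0) ^ d - (a - ε))) := by
    apply Tendsto.sub_const
    apply Tendsto.const_mul
    apply Tendsto.pow
    apply Tendsto.const_sub
    exact tendsto_const_nhds.div_atTop tendsto_id
  have hval : (a - ε / 2) * (1 - 0 : ℝ) ^ d - (a - ε) = ε / 2 := by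
    rw [sub_zero, one_pow]; ring
  rw [hval] at hb
  have hr : Tendsto (fun r : ℝ => r ^ d) atTop atTop := tendsto_pow_atTop (by omega)
  have hm := hr.atTop_mul_pos (by positivity : 0 < ε / 2) hb
  filter_upwards [hm.eventually_ge_atTop (Real.log C), eventually_gt_atTop 0] with r h1 h2
  have h3 : (r - c) ^ d = r ^ d * (1 - c / r) ^ d := by
    rw [← mul_pow]
    congr 1
    field_simp
  rw [h3]
  nth_rewrite 1 [← Real.exp_log hC]
  rw [← Real.exp_add]
  apply Real.exp_le_exp.2
  nlinarith [h1]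

end Pool.Agent.H96.MC.ASY
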