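import Pool.Agent.H89.MC.Targets
import Pool.Agent.H85.MC.NU

/-! Module DIST (MP_5da387_pr): the point sets of different colours are disjoint. -/

namespace Pool.Agent.H96.MC.DIST

open Pool.Agent.H96.MC MeasureTheory ProbabilityTheory Pool.Agent.H85.MC.NU

variable {d q : ℕ}

/-- half-open cube of side `1/n` -/
def cub (n : ℕ) (m : Fin d → ℤ) : Set (Sp d) :=
  {x | ∀ i, (m i : ℝ) / n ≤ x i ∧ x i < ((m i : ℝ) + 1) / n}

theorem cub_eq (n : ℕ) (m : Fin d → ℤ) : cub n m = (MeasurableEquiv.toLp 2 (Fin d → ℝ)).symm ⁻¹'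
    (Set.pi Set.univ fun i => Set.Ico ((m i : ℝ) / n) (((m i : ℝ) + 1) / n)) := by
  ext x
  simp [cub, Set.mem_pi]

theorem cub_meas (n : ℕ) (m : Fin d → ℤ) : MeasurableSet (cub n m) := by
  rw [cub_eq]
  exact (MeasurableEquiv.measurable _) (MeasurableSet.univ_pi fun _ => measurableSet_Ico)

theorem cub_vol (n : ℕ) (hn : n ≠ 0) (m : Fin d → ℤ) : volume (cub n m) = ((n : ENNReal)⁻¹) ^ d := by
  rw [cub_eq, MeasurePreserving.measure_preimage (EuclideanSpace.volume_preserving_symm_measurableEquiv_toLp (Fin d))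
    (MeasurableSet.univ_pi fun _ => measurableSet_Ico).nullMeasurableSet, Real.volume_pi_Ico]
  have : ∀ i : Fin d, ENNReal.ofReal (((m i : ℝ) + 1) / n - (m i : ℝ) / n) = (n : ENNReal)⁻¹ := by
    intro i
    rw [show ((m i : ℝ) + 1) / n - (m i : ℝ) / n = ((n : ℝ))⁻¹ by ring,
      ENNReal.ofReal_inv_of_pos (by positivity), ENNReal.ofReal_natCast]
  simp [this]

theorem cub_bdd (n : ℕ) (m : Fin d → ℤ) : Bornology.IsBounded (cub n m) := by
  rw [cub_eq]
  have h1 : Bornology.IsBounded (Set.pi Set.univ fun i : Fin d =>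
      Set.Ico ((m i : ℝ) / n) (((m i : ℝ) + 1) / n)) :=
    Bornology.IsBounded.pi fun i => Metric.isBounded_Ico _ _
  have h2 := (PiLp.lipschitzWith_toLp 2 (fun _ : Fin d => ℝ)).isBounded_image h1
  refine h2.subset ?_
  intro x hx
  exact ⟨_, hx, by simp⟩

theorem mean_cub {V : Finset (Fin q → ℕ)} {lam : Fin q → ℝ} (S : Scheme V lam d) (i : Fin q)
    (n : ℕ) (hn : n ≠ 0) (m : Fin d → ℤ) :
    ∫⁻ ω, ((S.Pi i ω ∩ cub n m).encard : ENNReal) ∂S.P = ENNReal.ofReal (lam i) * ((n : ENNReal)⁻¹) ^ d := by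
  have h := (S.poisson.2 1 (fun _ => i) (fun _ => cub n m) (fun _ => cub_meas n m) (fun _ => cub_bdd n m)
    (fun j j' hj => absurd (Subsingleton.elim j j') hj)).2 0
  have hm := S.poisson.1 i (cub n m) (cub_meas n m)
  have h3 := congrArg (fun μ => ∫⁻ n : ℕ∞, (n : ENNReal) ∂μ) h
  rw [lintegral_map toENNReal_measurable hm, lintegral_map toENNReal_measurable Measurable.of_discrete] at h3
  rw [h3]
  simp only [ENat.toENNReal_coe]
  rw [poisson_mean, cub_vol n hn]
  rw [ENNReal.coe_mul]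
  congr 1
  rw [ENNReal.coe_toNNReal]
  exact ENNReal.pow_ne_top (ENNReal.inv_ne_top.mpr (by exact_mod_cast hn))

/-- the event that colour `i` has a point in the cube -/
def ev {V : Finset (Fin q → ℕ)} {lam : Fin q → ℝ} (S : Scheme V lam d) (i : Fin q)
    (n : ℕ) (m : Fin d → ℤ) : Set S.Ω := (fun ω => (S.Pi i ω ∩ cub n m).encard) ⁻¹' {0}ᶜ

theorem ev_le {V : Finset (Fin q → ℕ)} {lam : Fin q → ℝ} (S : Scheme V lam d) (i : Fin q)
    (n : ℕ) (hn : n ≠ 0) (m : Fin d → ℤ) :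
    S.P (ev S i n m) ≤ ENNReal.ofReal (lam i) * ((n : ENNReal)⁻¹) ^ d := by
  rw [← mean_cub S i n hn m]
  have h := mul_meas_ge_le_lintegral (μ := S.P) (f := fun ω => ((S.Pi i ω ∩ cub n m).encard : ENNReal))
    (toENNReal_measurable.comp (S.poisson.1 i _ (cub_meas n m))) 1
  rw [one_mul] at h
  refine (measure_mono ?_).trans h
  intro ω hω
  simp only [ev, Set.mem_preimage, Set.mem_compl_iff, Set.mem_singleton_iff] at hω
  show (1 : ENNReal) ≤ ((S.Pi i ω ∩ cub n m).encard : ENNReal)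
  have : (1 : ℕ∞) ≤ (S.Pi i ω ∩ cub n m).encard := Order.one_le_iff_ne_zero.mpr hω
  exact_mod_cast this

theorem ev_inter {V : Finset (Fin q → ℕ)} {lam : Fin q → ℝ} (S : Scheme V lam d) (i j : Fin q)
    (hij : i ≠ j) (n : ℕ) (hn : n ≠ 0) (m : Fin d → ℤ) :
    S.P (ev S i n m ∩ ev S j n m) ≤ (ENNReal.ofReal (lam i) * ((n : ENNReal)⁻¹) ^ d) *
      (ENNReal.ofReal (lam j) * ((n : ENNReal)⁻¹) ^ d) := by
  have h := (S.poisson.2 2 ![i, j] (fun _ => cub n m) (fun _ => cub_meas n m) (fun _ => cub_bdd n m)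
    (by
      intro a b hab
      left
      fin_cases a <;> fin_cases b <;> first | exact absurd rfl hab | exact hij | exact hij.symm)).1
  have h2 := h.indepFun (i := 0) (j := 1) (by decide)
  have h3 := h2.measure_inter_preimage_eq_mul {0}ᶜ {0}ᶜ trivial trivial
  have h4 : S.P (ev S i n m ∩ ev S j n m) = S.P (ev S i n m) * S.P (ev S j n m) := h3
  rw [h4]
  exact mul_le_mul' (ev_le S i n hn m) (ev_le S j n hn m)

theorem cell_null {V : Finset (Fin q → ℕ)} {lam : Fin q → ℝ} (S : Scheme V lam d) (hd : 1 ≤ d)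
    (i j : Fin q) (hij : i ≠ j) (v : Fin d → ℤ) :
    S.P {ω | ∃ x : Sp d, (∀ l, (v l : ℝ) ≤ x l ∧ x l < v l + 1) ∧ x ∈ S.Pi i ω ∧ x ∈ S.Pi j ω} = 0 := by
  have key : ∀ n : ℕ, n ≠ 0 →
      S.P {ω | ∃ x : Sp d, (∀ l, (v l : ℝ) ≤ x l ∧ x l < v l + 1) ∧ x ∈ S.Pi i ω ∧ x ∈ S.Pi j ω} ≤
      (ENNReal.ofReal (lam i) * ENNReal.ofReal (lam j)) * (n : ENNReal)⁻¹ := by
    intro n hn
    have hn' : (0 : ℝ) < n := by positivity
    set I : Finset (Fin d → ℤ) := Fintype.piFinset (fun l => Finset.Ico (n * v l) (n * v l + n)) with hI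
    have hcard : (I.card : ENNReal) = (n : ENNReal) ^ d := by
      rw [hI, Fintype.card_piFinset]
      simp
    have hsub : {ω | ∃ x : Sp d, (∀ l, (v l : ℝ) ≤ x l ∧ x l < v l + 1) ∧ x ∈ S.Pi i ω ∧ x ∈ S.Pi j ω} ⊆
        ⋃ m ∈ I, (ev S i n m ∩ ev S j n m) := by
      rintro ω ⟨x, hx, h1, h2⟩
      have hxc : x ∈ cub n (fun l => ⌊(n : ℝ) * x l⌋) := by
        intro l
        have e1 := Int.floor_le ((n : ℝ) * x l)
        have e2 := Int.lt_floor_add_one ((n : ℝ) * x l)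
        constructor
        · rw [div_le_iff₀ hn']; linarith
        · rw [lt_div_iff₀ hn']; linarith
      have hmem : (fun l => ⌊(n : ℝ) * x l⌋) ∈ I := by
        rw [hI, Fintype.mem_piFinset]
        intro l
        rw [Finset.mem_Ico]
        constructor
        · rw [Int.le_floor]
          push_cast
          exact mul_le_mul_of_nonneg_left (hx l).1 hn'.le
        · rw [Int.floor_lt]
          push_cast
          nlinarith [(hx l).2]
      refine Set.mem_biUnion hmem ⟨?_, ?_⟩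
      · show (S.Pi i ω ∩ cub n _).encard ∈ ({0}ᶜ : Set ℕ∞)
        rw [Set.mem_compl_iff, Set.mem_singleton_iff, Set.encard_eq_zero]
        exact Set.Nonempty.ne_empty ⟨x, h1, hxc⟩
      · show (S.Pi j ω ∩ cub n _).encard ∈ ({0}ᶜ : Set ℕ∞)
        rw [Set.mem_compl_iff, Set.mem_singleton_iff, Set.encard_eq_zero]
        exact Set.Nonempty.ne_empty ⟨x, h2, hxc⟩
    set a := ENNReal.ofReal (lam i) with ha
    set b := ENNReal.ofReal (lam j) with hb
    set t : ENNReal := (n : ENNReal)⁻¹ with ht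
    have hnt : (n : ENNReal) * t = 1 := ENNReal.mul_inv_cancel (by exact_mod_cast hn) (by simp)
    calc S.P _ ≤ S.P (⋃ m ∈ I, (ev S i n m ∩ ev S j n m)) := measure_mono hsub
      _ ≤ ∑ m ∈ I, S.P (ev S i n m ∩ ev S j n m) := measure_biUnion_finset_le _ _
      _ ≤ ∑ m ∈ I, (a * t ^ d) * (b * t ^ d) := Finset.sum_le_sum fun m _ => ev_inter S i j hij n hn m
      _ = (n : ENNReal) ^ d * ((a * t ^ d) * (b * t ^ d)) := by
          rw [Finset.sum_const, nsmul_eq_mul, hcard]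
      _ = (a * b) * t ^ d * ((n : ENNReal) * t) ^ d := by ring
      _ = (a * b) * t ^ d := by rw [hnt, one_pow, mul_one]
      _ ≤ (a * b) * t := by
          refine mul_le_mul' le_rfl ?_
          have ht1 : t ≤ 1 := by
            rw [ht, ENNReal.inv_le_one]
            exact_mod_cast Nat.one_le_iff_ne_zero.mpr hn
          calc t ^ d ≤ t ^ 1 := pow_le_pow_right_of_le_one' ht1 hd
            _ = t := pow_one t
  have hlim : Filter.Tendsto (fun n : ℕ => (ENNReal.ofReal (lam i) * ENNReal.ofReal (lam j)) *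
      (n : ENNReal)⁻¹) Filter.atTop (nhds 0) := by
    have := ENNReal.Tendsto.const_mul (a := ENNReal.ofReal (lam i) * ENNReal.ofReal (lam j))
      ENNReal.tendsto_inv_nat_nhds_zero (Or.inr (ENNReal.mul_ne_top ENNReal.ofReal_ne_top ENNReal.ofReal_ne_top))
    simpa using this
  have hle := ge_of_tendsto hlim (Filter.eventually_atTop.mpr ⟨1, fun n hn => key n (by omega)⟩)
  exact le_antisymm hle bot_le

theorem dist : T_DIST := by
  intro d q D S hd
  rw [ae_all_iff]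
  intro i
  rw [ae_all_iff]
  intro j
  by_cases hij : i = j
  · exact Filter.Eventually.of_forall fun ω h => absurd hij h
  · have h := fun v : Fin d → ℤ => cell_null S hd i j hij v
    have h2 : ∀ᵐ ω ∂S.P, ∀ v : Fin d → ℤ,
        ¬ (∃ x : Sp d, (∀ l, (v l : ℝ) ≤ x l ∧ x l < v l + 1) ∧ x ∈ S.Pi i ω ∧ x ∈ S.Pi j ω) := by
      rw [ae_all_iff]
      intro v
      rw [ae_iff]
      simpa only [not_not] using h v
    filter_upwards [h2] with ω hω _
    rw [Set.disjoint_left]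
    intro x h1 h3
    exact hω (fun l => ⌊x l⌋) ⟨x, fun l => ⟨Int.floor_le _, Int.lt_floor_add_one _⟩, h1, h3⟩

end Pool.Agent.H96.MC.DIST
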