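import Pool.Agent.H89.MC.Targets
import Pool.Agent.H85.MC.NU

/-! Module EPC (MP_5da387_pr): expected number of points of the unit cube. -/

namespace Pool.Agent.H96.MC.EPC

open Pool.Agent.H96.MC MeasureTheory Pool.Agent.H85.MC.NU

theorem epc (h : T_DIST) : T_EPC := by
  intro d q D S hd
  have hae : ∀ᵐ ω ∂S.P, (({x : Sp d | (∀ i, 0 ≤ x i ∧ x i < 1) ∧ (∃ i, x ∈ S.Pi i ω) ∧
      ∃ G ∈ S.M ω, x ∈ G ∧ (-1 : ℝ) < fdiam G}.encard : ℕ∞) : ENNReal) =
      ∑ i, ((S.Pi i ω ∩ Qc d).encard : ENNReal) := by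
    filter_upwards [h d q D S hd, S.part] with ω h1 h2
    have hset : {x : Sp d | (∀ i, 0 ≤ x i ∧ x i < 1) ∧ (∃ i, x ∈ S.Pi i ω) ∧
        ∃ G ∈ S.M ω, x ∈ G ∧ (-1 : ℝ) < fdiam G} = ⋃ i, (S.Pi i ω ∩ Qc d) := by
      ext x
      simp only [Set.mem_ofPred_eq, Set.mem_iUnion, Set.mem_inter_iff]
      constructor
      · rintro ⟨hx, ⟨i, hi⟩, -⟩
        exact ⟨i, hi, hx⟩
      · rintro ⟨i, hi, hx⟩
        obtain ⟨G, ⟨hG, hxG⟩, -⟩ := h2 i x hi
        refine ⟨hx, ⟨i, hi⟩, G, hG, hxG, ?_⟩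
        have : 0 ≤ fdiam G := Metric.diam_nonneg
        linarith
    rw [hset, encard_iUnion, tsum_fintype]
    intro i j hij
    exact (h1 i j hij).mono Set.inter_subset_left Set.inter_subset_left
  unfold Scheme.tl
  rw [lintegral_congr_ae hae, lintegral_finsetSum]
  · rw [ENNReal.ofReal_sum_of_nonneg (fun i _ => (D.pos i).le)]
    exact Finset.sum_congr rfl fun i _ => mean_color S i
  · intro i _
    exact toENNReal_measurable.comp (S.poisson.1 i _ Qc_meas)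

end Pool.Agent.H96.MC.EPC
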