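import Pool.Agent.H96.MC.Targets
import Pool.Agent.H96.MC.Targets4

/-!
Lower bound for every scheme in dimension one (MP_5da387_pr), module LO1.
-/

namespace Pool.Agent.H96.MC.LO1

open Pool.Agent.H96.MC Classical MeasureTheory ProbabilityTheory Filter

noncomputable section

variable {d q : ℕ}

lemma rst_congr {m m' : Cfg d q} {P : Finset (Cell d)} (h : ∀ x : CC d q, x.1 ∈ P → m x = m' x) :
    rst m P = rst m' P := by
  ext x
  rw [rst_apply, rst_apply]
  by_cases hx : x.1 ∈ P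
  · rw [if_pos hx, if_pos hx, h x hx]
  · rw [if_neg hx, if_neg hx]

lemma good_congr {V : Finset (Fin q → ℕ)} {N s T : ℕ} {m m' : Cfg d q} {g : Fin q → ℤ}
    (h : ∀ x : CC d q, sn x.1 ≤ T + N → m x = m' x) : Good V N s T m g ↔ Good V N s T m' g := by
  have : rst m (cube 0 (T + N)) = rst m' (cube 0 (T + N)) := by
    apply rst_congr
    intro x hx
    apply h
    rw [mem_cube, sub_zero] at hx
    exact hx
  unfold Good
  rw [this]

lemma cell1_sn (x : ℤ) : sn (fun _ : Fin 1 => x) = x.natAbs := by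
  simp [sn]

lemma det_chain {V : Finset (Fin q → ℕ)} {N s T R : ℕ} {n n' : Cfg 1 q}
    (h : ∀ x : CC 1 q, sn x.1 ≤ R → n x = n' x) (hn : n ∈ ChainBad V N s T R) :
    n' ∈ ChainBad V N s T R := by
  intro γ
  obtain ⟨c, hc, hg⟩ := hn γ
  refine ⟨c, hc, ?_⟩
  have h1 : lft R (c - s) n = lft R (c - s) n' := by
    funext i
    unfold lft
    apply Finset.sum_congr rfl
    intro x hx
    rw [Finset.mem_Ico] at hx
    rw [h]
    show sn (fun _ : Fin 1 => x) ≤ R
    rw [cell1_sn]
    omega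
  have h2 : Good V N s T (shift (fun _ => c) n) (γ + lft R (c - s) n) ↔
      Good V N s T (shift (fun _ => c) n') (γ + lft R (c - s) n) := by
    apply good_congr
    intro x hx
    unfold shift
    apply h
    show sn (x.1 + fun _ => c) ≤ R
    have := sn_add_le x.1 (fun _ : Fin 1 => c)
    rw [cell1_sn] at this
    omega
  rw [← h1, ← h2]
  exact hg

lemma ext_apply {W : Finset (CC d q)} (m : Cfg d q) {x : CC d q} (hx : x ∈ W) :
    ext (fun x : W => m x.1) x = m x := by
  unfold ext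
  rw [dif_pos hx]

lemma PL_nonneg {κ : Type} [Fintype κ] {lam : κ → ℝ} (hlam : ∀ k, 0 < lam k) {L : ℝ} (hL : 0 ≤ L)
    (Z : Set (κ → ℕ)) : 0 ≤ PL lam L Z := by
  apply tsum_nonneg
  intro w
  apply Set.indicator_nonneg
  intro w _
  apply Finset.prod_nonneg
  intro k _
  have := (hlam k).le
  positivity

lemma PL_le_one (h6 : T_PLM) {κ : Type} [Fintype κ] {lam : κ → ℝ} (hlam : ∀ k, 0 < lam k) {L : ℝ}
    (hL : 0 ≤ L) (Z : Set (κ → ℕ)) : PL lam L Z ≤ 1 := by
  have h := h6 κ inferInstance lam L Z hlam hL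
  have h2 : ENNReal.ofReal (PL lam L Z) ≤ 1 := by
    rw [← h]
    exact prob_le_one
  exact ENNReal.ofReal_le_one.1 h2

lemma PL_pos (h6 : T_PLM) {κ : Type} [Fintype κ] {lam : κ → ℝ} (hlam : ∀ k, 0 < lam k) {L : ℝ}
    (hL : 0 < L) {Z : Set (κ → ℕ)} (hZ : Z.Nonempty) : 0 < PL lam L Z := by
  have h := h6 κ inferInstance lam L Z hlam hL.le
  obtain ⟨w, hw⟩ := hZ
  have h2 : 0 < ENNReal.ofReal (PL lam L Z) := by
    rw [← h]
    refine lt_of_lt_of_le ?_ (measure_mono (Set.singleton_subset_iff.2 hw))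
    rw [Measure.pi_singleton]
    apply CanonicallyOrderedAdd.prod_pos.2
    intro k _
    have hr : 0 < (lam k * L).toNNReal := Real.toNNReal_pos.2 (mul_pos (hlam k) hL)
    have h3 := poissonMeasure_real_singleton_pos (w k) hr
    rw [Measure.real] at h3
    exact (ENNReal.toReal_pos_iff.1 h3).1
  exact ENNReal.ofReal_pos.1 h2

theorem lo1 (h1 : T_LCE) (h2 : T_LLW) (h3 : T_LTL) (h4 : T_CHN) (h5 : T_CHP) (h6 : T_PLM)
    (h7 : T_WINP) (h8 : T_SEMI) (h9 : T_LIM) : T_LO1 := by
  intro q D S N s T hA ε hε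
  obtain ⟨hN, hNs, hsT, hne⟩ := hA
  have hN3 : (3 : ℝ) ≤ N := by exact_mod_cast hN
  set lamW : win 1 q (T + N) → ℝ := fun x => D.lam x.1.2 with hlamW
  have hlampos : ∀ k, 0 < lamW k := fun k => D.pos _
  set w : ℝ := wrate D 1 N s T with hw
  have hlim : Tendsto (fun L : ℕ => -Real.log (PL lamW L (ZBad 1 D.V N s T)) / L) atTop (nhds w) :=
    h9 _ inferInstance lamW _ hlampos (h8 1 q D N s T hNs hsT) hne
  have hw0 : 0 ≤ w := by
    apply ge_of_tendsto hlim
    filter_upwards [eventually_ge_atTop 1] with L hL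
    apply div_nonneg _ (Nat.cast_nonneg L)
    have hl1 := PL_le_one h6 hlampos (Nat.cast_nonneg L) (ZBad 1 D.V N s T)
    have hl0 := PL_nonneg hlampos (Nat.cast_nonneg L) (ZBad 1 D.V N s T)
    have := Real.log_nonpos hl0 hl1
    linarith
  obtain ⟨cE, hcE, hCE⟩ := h5 q D
  obtain ⟨Cr, hCr⟩ := hCE N s T hNs hsT
  set e1 : ℝ := ε / 2 with he1
  have he1' : 0 < e1 := by positivity
  -- lower bound on the probability of bad windows
  have hPL : ∀ᶠ L : ℕ in atTop, Real.exp (-(w + e1) * L) ≤ PL lamW L (ZBad 1 D.V N s T) := by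
    filter_upwards [hlim.eventually (gt_mem_nhds (show w < w + e1 by linarith)),
      eventually_ge_atTop 1] with L hL hL1
    have hLpos : (0 : ℝ) < L := by exact_mod_cast hL1
    have hp := PL_pos h6 hlampos hLpos hne
    rw [div_lt_iff₀ hLpos] at hL
    rw [← Real.exp_log hp]
    apply Real.exp_le_exp.2
    linarith
  have hceil : Tendsto (fun r : ℝ => ⌈r / ((N : ℝ) - 1)⌉₊) atTop atTop :=
    tendsto_nat_ceil_atTop.comp (tendsto_id.atTop_div_const (by linarith))
  -- the numerical estimate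
  have hnum : ∀ᶠ r : ℝ in atTop, Real.exp (-(ε / 2) * r) * (r + 1) *
      (Real.exp (w + e1) * (2 * |Cr| + 1)) ≤ cE := by
    have ht : Tendsto (fun r : ℝ => Real.exp (-(ε / 2) * r) * (r + 1) *
        (Real.exp (w + e1) * (2 * |Cr| + 1))) atTop
        (nhds (0 * (Real.exp (w + e1) * (2 * |Cr| + 1)))) := by
      apply Tendsto.mul_const
      have hs : Tendsto (fun r : ℝ => (ε / 2) * r) atTop atTop :=
        tendsto_id.const_mul_atTop (by positivity)
      have h1 := ((Real.tendsto_pow_mul_exp_neg_atTop_nhds_zero 1).comp hs).const_mul (2 / ε)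
      have h0 := (Real.tendsto_pow_mul_exp_neg_atTop_nhds_zero 0).comp hs
      have h2 := h1.add h0
      rw [mul_zero, add_zero] at h2
      refine h2.congr ?_
      intro r
      simp only [Function.comp, pow_one, pow_zero, one_mul]
      have : 2 / ε * (ε / 2 * r * Real.exp (-(ε / 2 * r))) = r * Real.exp (-(ε / 2 * r)) := by
        field_simp
      rw [this, neg_mul]
      ring
    rw [zero_mul] at ht
    exact ht.eventually (ge_mem_nhds hcE) |>.mono fun r hr => hr
  filter_upwards [hceil.eventually hPL, hnum, eventually_ge_atTop 1] with r hp hn hr1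
  set L : ℕ := ⌈r / ((N : ℝ) - 1)⌉₊ with hLdef
  have hNm : (0 : ℝ) < (N : ℝ) - 1 := by linarith
  have hL1 : 1 ≤ L := Nat.one_le_iff_ne_zero.2 (Nat.ceil_pos.2 (by positivity)).ne'
  have hLR : (1 : ℝ) ≤ L := by exact_mod_cast hL1
  have hLge : r / ((N : ℝ) - 1) ≤ L := Nat.le_ceil _
  have hLle : (L : ℝ) ≤ r / ((N : ℝ) - 1) + 1 := (Nat.ceil_lt_add_one (by positivity)).le
  have hLpos : (0 : ℝ) < L := by linarith
  set p : ℝ := PL lamW L (ZBad 1 D.V N s T) with hpdef
  have hppos : 0 < p := PL_pos h6 hlampos hLpos hne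
  have hp1 : p ≤ 1 := PL_le_one h6 hlampos hLpos.le _
  obtain ⟨R, hR, hRc⟩ := hCr L hLR p hppos le_rfl
  have hCr0 : 0 ≤ Cr := by
    have : (0 : ℝ) ≤ Cr / p := le_trans (Nat.cast_nonneg R) hR
    by_contra hc
    push Not at hc
    have := div_neg_of_neg_of_pos hc hppos
    linarith
  -- transfer of the chain event to the scheme
  set W := win 1 q R with hW
  set Z : Set (W → ℕ) := {v | ext v ∈ ChainBad D.V N s T R} with hZ
  have hCB : poisL D 1 L (ChainBad D.V N s T R) = S.P {ω | (fun x : W => S.Nc L ω x.1) ∈ Z} := by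
    have e1 : ChainBad D.V N s T R = {m : Cfg 1 q | (fun x : W => m x.1) ∈ Z} := by
      ext m
      rw [hZ]
      show m ∈ ChainBad D.V N s T R ↔ ext (fun x : W => m x.1) ∈ ChainBad D.V N s T R
      have hagree : ∀ x : CC 1 q, sn x.1 ≤ R → m x = ext (fun x : W => m x.1) x := by
        intro x hx
        rw [ext_apply]
        rw [hW, win, Finset.mem_product]
        exact ⟨mem_cube.2 (by rwa [sub_zero]), Finset.mem_univ _⟩
      exact ⟨det_chain hagree, det_chain (fun x hx => (hagree x hx).symm)⟩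
    rw [e1, h7 1 q D L W Z hLpos.le]
    have e2 := h6 W inferInstance (fun x : W => D.lam x.1.2) L Z (fun k => D.pos _) hLpos.le
    rw [← e2]
    obtain ⟨hm, hlaw⟩ := h2 1 q D S L W le_rfl hLpos
    have e3 : (fun x : W => poissonMeasure (D.lam x.1.2 * (L : ℝ)).toNNReal) =
        (fun x : W => poissonMeasure (D.lam x.1.2 * (L : ℝ) ^ 1).toNNReal) := by
      funext x
      rw [pow_one]
    rw [e3, ← hlaw, Measure.map_apply hm]
    · rfl
    · exact (Set.to_countable Z).measurableSet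
  -- a long family exists
  have hincl : S.P {ω | (fun x : W => S.Nc L ω x.1) ∈ Z} ≤
      S.P {ω | ∃ v ∈ cube (0 : Cell 1) R, ∃ x ∈ hcell (L : ℝ) v, ∃ F ∈ S.M ω, x ∈ F ∧ r < fdiam F} := by
    apply measure_mono_ae
    have hr' : r ≤ (L : ℝ) * ((N : ℝ) - (1 : ℕ)) := by
      rw [div_le_iff₀ hNm] at hLge
      push_cast
      exact hLge
    filter_upwards [h1 1 q D S L r N le_rfl hLpos hr'] with ω hω hz
    by_contra hno
    have hno' : ∀ v ∈ cube (0 : Cell 1) R, ∀ x ∈ hcell (L : ℝ) v, ∀ F ∈ S.M ω, x ∈ F →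
        fdiam F ≤ r := by
      intro v hv x hx F hF hxF
      by_contra hlt
      push Not at hlt
      exact hno ⟨v, hv, x, hx, F, hF, hxF, hlt⟩
    obtain ⟨μ, hμ1, hμ2, hμ3⟩ := hω _ hno'
    have hch : S.Nc L ω ∈ ChainBad D.V N s T R := by
      have hz' : ext (fun x : W => S.Nc L ω x.1) ∈ ChainBad D.V N s T R := hz
      refine det_chain ?_ hz'
      intro x hx
      rw [ext_apply]
      rw [hW, win, Finset.mem_product]
      exact ⟨mem_cube.2 (by rwa [sub_zero]), Finset.mem_univ _⟩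
    obtain ⟨γ, hγ⟩ := h4 q D.V N s T R (S.Nc L ω) μ hNs hsT (fun u hu => (hμ1 u hu).1) hμ2
      (fun x hx => hμ3 x (mem_cube.2 (by rwa [sub_zero])))
    obtain ⟨c, hc, hgc⟩ := hch γ
    exact hgc (hγ c hc)
  have hT := h3 1 q D S L r (cube (0 : Cell 1) R) le_rfl hLpos
  have hcard : (cube (0 : Cell 1) R).card = 2 * R + 1 := by
    simp only [cube, Fintype.card_piFinset, Finset.univ_unique, Finset.prod_singleton,
      Int.card_Icc, Pi.zero_apply]
    omega
  have hmain : ENNReal.ofReal cE ≤ ((2 * R + 1 : ℕ) : ENNReal) * ENNReal.ofReal ((L : ℝ) ^ 1) *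
      S.tl r := by
    calc ENNReal.ofReal cE ≤ poisL D 1 L (ChainBad D.V N s T R) := hRc
      _ = _ := hCB
      _ ≤ _ := hincl
      _ ≤ _ := hT
      _ = _ := by rw [hcard]
  by_cases htop : S.tl r = ⊤
  · rw [htop]; exact le_top
  set t : ℝ := (S.tl r).toReal with ht
  have htl : S.tl r = ENNReal.ofReal t := (ENNReal.ofReal_toReal htop).symm
  have ht0 : 0 ≤ t := ENNReal.toReal_nonneg
  have hreal : cE ≤ (2 * (R : ℝ) + 1) * L * t := by
    rw [htl, pow_one] at hmain
    have e : ((2 * R + 1 : ℕ) : ENNReal) = ENNReal.ofReal (2 * (R : ℝ) + 1) := by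
      rw [show (2 * (R : ℝ) + 1) = ((2 * R + 1 : ℕ) : ℝ) by push_cast; ring, ENNReal.ofReal_natCast]
    rw [e, ← ENNReal.ofReal_mul (by positivity), ← ENNReal.ofReal_mul (by positivity)] at hmain
    exact (ENNReal.ofReal_le_ofReal_iff (by positivity)).1 hmain
  rw [htl]
  apply ENNReal.ofReal_le_ofReal
  -- numerical conclusion
  have hK : (2 * (R : ℝ) + 1) * p ≤ 2 * |Cr| + 1 := by
    rw [abs_of_nonneg hCr0]
    have : (R : ℝ) * p ≤ Cr := by rwa [le_div_iff₀ hppos] at hR
    nlinarith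
  have hL2 : (L : ℝ) ≤ r + 1 := by
    have : r / ((N : ℝ) - 1) ≤ r := div_le_self (by linarith) (by linarith)
    linarith
  have hexp : Real.exp (-(w / ((N : ℝ) - (1 : ℕ)) ^ 1 + ε) * r ^ 1) ≤
      Real.exp (-(ε / 2) * r) * Real.exp (w + e1) * p := by
    have hp' : Real.exp (-(w + e1) * L) ≤ p := hp
    calc Real.exp (-(w / ((N : ℝ) - (1 : ℕ)) ^ 1 + ε) * r ^ 1)
        ≤ Real.exp (-(ε / 2) * r) * Real.exp (w + e1) * Real.exp (-(w + e1) * L) := by
          rw [← Real.exp_add, ← Real.exp_add]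
          apply Real.exp_le_exp.2
          rw [pow_one, pow_one, Nat.cast_one]
          have k1 : (w + e1) * L ≤ (w + e1) * (r / ((N : ℝ) - 1) + 1) :=
            mul_le_mul_of_nonneg_left hLle (by linarith)
          have k2 : r / ((N : ℝ) - 1) ≤ r := div_le_self (by linarith) (by linarith)
          have k3 : e1 * (r / ((N : ℝ) - 1)) ≤ e1 * r := mul_le_mul_of_nonneg_left k2 he1'.le
          have k4 : w / ((N : ℝ) - 1) * r = w * (r / ((N : ℝ) - 1)) := by ring
          have k5 : e1 = ε / 2 := he1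
          nlinarith
      _ ≤ _ := mul_le_mul_of_nonneg_left hp' (by positivity)
  have hfin : Real.exp (-(ε / 2) * r) * Real.exp (w + e1) * p * ((2 * (R : ℝ) + 1) * L) ≤ cE := by
    calc Real.exp (-(ε / 2) * r) * Real.exp (w + e1) * p * ((2 * (R : ℝ) + 1) * L)
        = (Real.exp (-(ε / 2) * r) * Real.exp (w + e1)) * (((2 * (R : ℝ) + 1) * p) * L) := by ring
      _ ≤ (Real.exp (-(ε / 2) * r) * Real.exp (w + e1)) * ((2 * |Cr| + 1) * (r + 1)) := by
          apply mul_le_mul_of_nonneg_left _ (by positivity)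
          apply mul_le_mul hK hL2 hLpos.le (by positivity)
      _ = Real.exp (-(ε / 2) * r) * (r + 1) * (Real.exp (w + e1) * (2 * |Cr| + 1)) := by ring
      _ ≤ cE := hn
  have hden : (0 : ℝ) < (2 * (R : ℝ) + 1) * L := by positivity
  have h5 : Real.exp (-(ε / 2) * r) * Real.exp (w + e1) * p ≤ t := by
    have : Real.exp (-(ε / 2) * r) * Real.exp (w + e1) * p * ((2 * (R : ℝ) + 1) * L) ≤
        t * ((2 * (R : ℝ) + 1) * L) := by linarith
    exact le_of_mul_le_mul_right this hden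
  exact hexp.trans h5

end

end Pool.Agent.H96.MC.LO1
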