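import Pool.Agent.H14.MC.AVG
import Pool.Agent.H14.MC.SHX
import Pool.Agent.H17.MC.GP2
import Pool.Agent.H17.MC.LLW
import Pool.Agent.H17.MC.LO2
import Pool.Agent.H17.MC.LOC
import Pool.Agent.H17.MC.LOWR
import Pool.Agent.H17.MC.LTL
import Pool.Agent.H17.MC.REC
import Pool.Agent.H17.MC.TYP
import Pool.Agent.H2.MC.BLK
import Pool.Agent.H2.MC.IVS
import Pool.Agent.H2.MC.PIG
import Pool.Agent.H2.MC.SHI
import Pool.Agent.H20.MC.CLO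
import Pool.Agent.H20.MC.CONN
import Pool.Agent.H20.MC.CPT
import Pool.Agent.H20.MC.SPH
import Pool.Agent.H20.MC.TIG
import Pool.Agent.H33.MC.CHP
import Pool.Agent.H33.MC.CLP
import Pool.Agent.H33.MC.MAIN
import Pool.Agent.H35.MC.PLC
import Pool.Agent.H35.MC.SPL
import Pool.Agent.H35.MC.UPA
import Pool.Agent.H36.MC.APOS
import Pool.Agent.H4.MC.AL
import Pool.Agent.H4.MC.FINW
import Pool.Agent.H4.MC.LIM
import Pool.Agent.H4.MC.MEA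
import Pool.Agent.H4.MC.MOT
import Pool.Agent.H4.MC.NUMD
import Pool.Agent.H4.MC.NUME
import Pool.Agent.H4.MC.POI
import Pool.Agent.H4.MC.POSA
import Pool.Agent.H4.MC.PSUM
import Pool.Agent.H4.MC.RB
import Pool.Agent.H4.MC.TLB
import Pool.Agent.H42.MC.RL1
import Pool.Agent.H42.MC.RL2
import Pool.Agent.H42.MC.STAGE
import Pool.Agent.H42.MC.TH
import Pool.Agent.H46.MC.CLS
import Pool.Agent.H46.MC.NUMC
import Pool.Agent.H46.MC.SEMI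
import Pool.Agent.H46.MC.SUP
import Pool.Agent.H47.MC.OWN
import Pool.Agent.H47.MC.REGJ
import Pool.Agent.H47.MC.WIN
import Pool.Agent.H47.MC.ZONS
import Pool.Agent.H48.MC.BOX
import Pool.Agent.H48.MC.SMALL
import Pool.Agent.H48.MC.ZNE
import Pool.Agent.H54.MC.MTC
import Pool.Agent.H57.MC.CHN
import Pool.Agent.H59.MC.CNT
import Pool.Agent.H59.MC.REGZ
import Pool.Agent.H59.MC.ZON
import Pool.Agent.H62.MC.EQM
import Pool.Agent.H62.MC.Fmeas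
import Pool.Agent.H62.MC.LBL
import Pool.Agent.H65.MC.AVP
import Pool.Agent.H65.MC.MOVE
import Pool.Agent.H65.MC.NUMA
import Pool.Agent.H65.MC.NUMB
import Pool.Agent.H65.MC.PPP
import Pool.Agent.H65.MC.SLOW
import Pool.Agent.H65.MC.UNI
import Pool.Agent.H74.MC.LCE
import Pool.Agent.H74.MC.RGP
import Pool.Agent.H75.MC.CHER
import Pool.Agent.H75.MC.DSC
import Pool.Agent.H75.MC.FTL
import Pool.Agent.H75.MC.GOO
import Pool.Agent.H75.MC.LIFT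
import Pool.Agent.H75.MC.PLM
import Pool.Agent.H85.MC.INDL
import Pool.Agent.H85.MC.NU
import Pool.Agent.H85.MC.PHI
import Pool.Agent.H85.MC.UB
import Pool.Agent.H86.MC.CLU
import Pool.Agent.H86.MC.CONE
import Pool.Agent.H86.MC.FLOW
import Pool.Agent.H86.MC.PAR
import Pool.Agent.H89.MC.TLM
import Pool.Agent.H96.MC.ASY
import Pool.Agent.H96.MC.DIST
import Pool.Agent.H96.MC.EPC
import Pool.Agent.H96.MC.LO1

/-!
Assembly of the modules for MP_5da387_pr.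
-/

namespace Pool.Agent.H96.MC.Asm

open Pool.Agent.H96.MC

theorem m_ASY : T_ASY :=
  Pool.Agent.H96.MC.ASY.asy

theorem m_BOX : T_BOX :=
  Pool.Agent.H48.MC.box

theorem m_CHER : T_CHER :=
  Pool.Agent.H75.MC.cher

theorem m_CHN : T_CHN :=
  Pool.Agent.H57.MC.CHN.chn

theorem m_CLO : T_CLO :=
  Pool.Agent.H20.MC.CLO.clo

theorem m_CLS : T_CLS :=
  Pool.Agent.H46.MC.cls

theorem m_CLU : T_CLU :=
  Pool.Agent.H96.MC.M86.clu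

theorem m_CONE : T_CONE :=
  Pool.Agent.H96.MC.M86.cone

theorem m_CPT : T_CPT :=
  Pool.Agent.H20.MC.CPT.cpt

theorem m_DIST : T_DIST :=
  Pool.Agent.H96.MC.DIST.dist

theorem m_EPC : T_EPC :=
  Pool.Agent.H96.MC.EPC.epc m_DIST

theorem m_EQM : T_EQM :=
  Pool.Agent.H62.MC.eqm

theorem m_FLOW : T_FLOW :=
  Pool.Agent.H96.MC.M86.flow

theorem m_FMEAS : T_FMEAS :=
  Pool.Agent.H62.MC.fmeas

theorem m_INDEP : T_INDEP :=
  Pool.Agent.H62.MC.indep m_FMEAS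

theorem m_INDL : T_INDL :=
  Pool.Agent.H85.MC.indl m_FMEAS

theorem m_LBL : T_LBL :=
  Pool.Agent.H62.MC.lbl

theorem m_LCE : T_LCE :=
  Pool.Agent.H74.MC.lce

theorem m_LIFT : T_LIFT :=
  Pool.Agent.H75.MC.lift

theorem m_LLW : T_LLW :=
  Pool.Agent.H17.MC.llw

theorem m_LOC : T_LOC :=
  Pool.Agent.H17.MC.loc

theorem m_LPF : T_LPF :=
  Pool.Agent.H62.MC.lpf m_CLO

theorem m_MOVE : T_MOVE :=
  Pool.Agent.H65.MC.move

theorem m_MTC : T_MTC :=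
  Pool.Agent.H54.MC.mtc

theorem m_NU : T_NU :=
  Pool.Agent.H85.MC.NU.nu

theorem m_NUMA : T_NUMA :=
  Pool.Agent.H65.MC.numa

theorem m_NUMB : T_NUMB :=
  Pool.Agent.H65.MC.numb

theorem m_NUMC : T_NUMC :=
  Pool.Agent.H46.MC.numc

theorem m_NUMD : T_NUMD :=
  Pool.Agent.H4.MC.numd

theorem m_NUME : T_NUME :=
  Pool.Agent.H4.MC.nume

theorem m_OWN : T_OWN :=
  Pool.Agent.H47.MC.own m_BOX

theorem m_PIG : T_PIG :=
  Pool.Agent.H2.MC.pig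

theorem m_PLM : T_PLM :=
  Pool.Agent.H75.MC.plm

theorem m_PSUM : T_PSUM :=
  Pool.Agent.H4.MC.psum

theorem m_REGJ : T_REGJ :=
  Pool.Agent.H47.MC.regj m_LIFT

theorem m_RGP : T_RGP :=
  Pool.Agent.H74.MC.rgp

theorem m_SEMI : T_SEMI :=
  Pool.Agent.H46.MC.semi m_CLS

theorem m_SHI : T_SHI :=
  Pool.Agent.H2.MC.shi

theorem m_SHX : T_SHX :=
  Pool.Agent.H14.MC.shx

theorem m_SLOW : T_SLOW :=
  Pool.Agent.H65.MC.slow

theorem m_SMALL : T_SMALL :=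
  Pool.Agent.H48.MC.small m_LIFT

theorem m_SPH : T_SPH :=
  Pool.Agent.H20.MC.sph

theorem m_SPL : T_SPL :=
  Pool.Agent.H35.MC.t_SPL

theorem m_SUP : T_SUP :=
  Pool.Agent.H46.MC.sup m_BOX m_CLS m_LIFT

theorem m_TH : T_TH :=
  Pool.Agent.H42.MC.th

theorem m_TIG : T_TIG :=
  Pool.Agent.H20.MC.TIG.tig

theorem m_TLM : T_TLM :=
  Pool.Agent.H89.MC.TLM.tlm m_CLO

theorem m_TYP : T_TYP :=
  Pool.Agent.H17.MC.typ m_CHER m_PSUM m_SHI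

theorem m_UNI : T_UNI :=
  Pool.Agent.H65.MC.uni

theorem m_WINP : T_WINP :=
  Pool.Agent.H62.MC.winp m_PLM

theorem m_ZNE : T_ZNE :=
  Pool.Agent.H48.MC.zne

theorem m_ZONS : T_ZONS :=
  Pool.Agent.H47.MC.zons m_BOX m_OWN

theorem m_AL : T_AL :=
  Pool.Agent.H4.MC.al m_CONE m_CLS m_FLOW m_SMALL

theorem m_AVG : T_AVG :=
  Pool.Agent.H14.MC.Avg.avg m_SHX m_SHI

theorem m_AVP : T_AVP :=
  Pool.Agent.H65.MC.avp m_SHX m_CLO m_AVG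

theorem m_BLK : T_BLK :=
  Pool.Agent.H2.MC.blk m_PSUM

theorem m_CHA : T_CHA :=
  Pool.Agent.H85.MC.cha m_INDL m_WINP m_PLM

theorem m_CLP : T_CLP :=
  Pool.Agent.H33.MC.CLP.clp m_CLS

theorem m_CNT : T_CNT :=
  Pool.Agent.H59.MC.CNT.cnt m_FMEAS

theorem m_CONN : T_CONN :=
  Pool.Agent.H20.MC.conn m_SPH

theorem m_FTL : T_FTL :=
  Pool.Agent.H75.MC.FTL.ftl m_NU m_DIST m_EPC

theorem m_GOO : T_GOO :=
  Pool.Agent.H75.MC.GOO.goo m_UNI m_CLO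

theorem m_GP1 : T_GP1 :=
  Pool.Agent.H85.MC.gp1 m_INDEP m_FMEAS

theorem m_GP2 : T_GP2 :=
  Pool.Agent.H17.MC.gp2 m_BLK m_SHI

theorem m_GP3 : T_GP3 :=
  Pool.Agent.H85.MC.gp3 m_INDEP

theorem m_IVS : T_IVS :=
  Pool.Agent.H2.MC.ivs m_SHX

theorem m_LIM : T_LIM :=
  Pool.Agent.H4.MC.lim m_PLM m_PSUM

theorem m_LIN : T_LIN :=
  Pool.Agent.H62.MC.lin m_SHX m_EQM

theorem m_LTL : T_LTL :=
  Pool.Agent.H17.MC.ltl m_NU

theorem m_MEA : T_MEA :=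
  Pool.Agent.H4.MC.MEA.mea m_GOO m_MTC

theorem m_MOT : T_MOT :=
  Pool.Agent.H4.MC.MOT.mot_mp m_SHX m_UNI

theorem m_PLC : T_PLC :=
  Pool.Agent.H35.MC.t_PLC m_RGP m_UNI

theorem m_POSA : T_POSA :=
  Pool.Agent.H4.MC.posa m_AL m_SUP m_CHER m_PLM m_PSUM m_SEMI m_LIM

theorem m_PPP : T_PPP :=
  Pool.Agent.H65.MC.ppp m_PLC m_PSUM m_UNI

theorem m_RB : T_RB :=
  Pool.Agent.H4.MC.rb m_WINP

theorem m_REC : T_REC :=
  Pool.Agent.H17.MC.recmod m_LOC m_GP1 m_GP2 m_GP3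

theorem m_REGZ : T_REGZ :=
  Pool.Agent.H59.MC.REGZ.regz m_SMALL

theorem m_RL1 : T_RL1 :=
  Pool.Agent.H42.MC.rl1 m_CLU m_TH

theorem m_RL2 : T_RL2 :=
  Pool.Agent.H42.MC.rl2 m_CLU m_CONN m_TH

theorem m_STAGE : T_STAGE :=
  Pool.Agent.H42.MC.stage m_RL2 m_RL1 m_SEMI m_LIM m_ZNE m_RB m_POSA

theorem m_TLB : T_TLB :=
  Pool.Agent.H4.MC.TLB.tlb m_SHX m_CLO m_UNI m_GOO m_MTC

theorem m_WIN : T_WIN :=
  Pool.Agent.H47.MC.winmod m_FLOW m_BOX m_MOVE m_REGZ m_REGJ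

theorem m_ZON : T_ZON :=
  Pool.Agent.H59.MC.ZON.zon m_PIG m_ZONS

theorem m_APOS : T_APOS :=
  Pool.Agent.H36.MC.apos m_POSA m_ZNE

theorem m_CHP : T_CHP :=
  Pool.Agent.H33.MC.CHP.chp m_CLS m_CLP m_CHA m_INDL m_SHI m_WINP

theorem m_DSC : T_DSC :=
  Pool.Agent.H75.MC.DSC.dsc m_AVP m_TIG m_CPT m_LIN m_LPF m_TLM

theorem m_LO1 : T_LO1 :=
  Pool.Agent.H96.MC.LO1.lo1 m_LCE m_LLW m_LTL m_CHN m_CHP m_PLM m_WINP m_SEMI m_LIM

theorem m_LO2 : T_LO2 :=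
  Pool.Agent.H17.MC.lo2 m_LCE m_LLW m_LTL m_PLM m_SEMI m_LIM

theorem m_LOWER : T_LOWER :=
  Pool.Agent.H17.MC.lowr m_LO1 m_LO2 m_ZNE

theorem m_PAR : T_PAR :=
  Pool.Agent.H96.MC.M86.par m_APOS m_TYP m_STAGE m_SLOW m_NUMA m_NUMB m_NUMC m_NUMD m_NUME

theorem m_PHI : T_PHI :=
  Pool.Agent.H85.MC.phi m_ZON m_WIN m_LBL m_LOC m_FMEAS

theorem m_POI : T_POI :=
  Pool.Agent.H4.MC.POI.poi m_UNI m_GOO m_MTC m_MEA m_PPP

theorem m_UPA : T_UPA :=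
  Pool.Agent.H35.MC.t_UPA m_GOO m_MTC m_MEA m_POI m_MOT m_IVS m_TLB m_ASY

theorem m_FINW : T_FINW :=
  Pool.Agent.H4.MC.finw m_AL m_CLS m_PAR m_PHI m_REC m_CNT m_APOS m_LOC m_FMEAS

theorem m_DISC : T_DISC := m_DSC m_FINW

theorem m_UPPER : T_UPPER := m_UPA m_DISC

theorem m_MainTheorem : MainTheorem :=
  Pool.Agent.H33.MC.MAIN.mainthm m_APOS m_UPPER m_LOWER m_FTL m_NU

end Pool.Agent.H96.MC.Asm
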