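import Mathlib

/-!
Multicolour Poisson matchings (MP_5da387_pr): combinatorial definitions.
Cells and blocks are integer vectors; a pattern is a finitely supported count vector on
(cell, colour) pairs.
-/

namespace Pool.Agent.H96.MC

open Classical

noncomputable section

/-- cells (and blocks of cells, and blocks of blocks) are integer vectors -/
abbrev Cell (d : ℕ) := Fin d → ℤ

/-- coloured cells -/
abbrev CC (d q : ℕ) := Cell d × Fin q

/-- a configuration: number of points of each colour in each cell -/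
abbrev Cfg (d q : ℕ) := CC d q → ℕ

/-- patterns: finitely supported configurations -/
abbrev Pat (d q : ℕ) := CC d q →₀ ℕ

variable {d q : ℕ}

/-- sup norm -/
def sn (z : Cell d) : ℕ := Finset.univ.sup (fun i => (z i).natAbs)

/-- Euclidean norm -/
def nrm (z : Cell d) : ℝ := Real.sqrt (∑ i, ((z i : ℝ)) ^ 2)

/-- cells at sup distance at most `T` from `c` -/
def cube (c : Cell d) (T : ℕ) : Finset (Cell d) :=
  Fintype.piFinset (fun i => Finset.Icc (c i - T) (c i + T))

/-- face adjacency -/
def Adj (a b : Cell d) : Prop := ∑ i, (a i - b i).natAbs = 1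

/-- a finite set of cells which is connected through faces -/
def Conn (Y : Finset (Cell d)) : Prop :=
  ∀ x ∈ Y, ∀ y ∈ Y, Relation.ReflTransGen (fun a b => a ∈ Y ∧ b ∈ Y ∧ Adj a b) x y

/-- the block of side `l` which contains the cell `z` -/
def bl (l : ℕ) (z : Cell d) : Cell d := fun i => z i / (l : ℤ)

/-- the cells of the block `b` of side `l` -/
def cellsOf (l : ℕ) (b : Cell d) : Finset (Cell d) :=
  Fintype.piFinset (fun i => Finset.Ico ((l : ℤ) * b i) ((l : ℤ) * b i + l))

/-- restriction of a configuration to a finite set of cells -/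
def rst (n : Cfg d q) (P : Finset (Cell d)) : Pat d q :=
  Finsupp.onFinset (P ×ˢ Finset.univ) (fun x => if x.1 ∈ P then n x else 0)
    (by
      intro x hx
      by_contra h
      apply hx
      have : x.1 ∉ P := fun h1 => h (Finset.mem_product.2 ⟨h1, Finset.mem_univ _⟩)
      simp [this])

/-- block counts -/
def bc (l : ℕ) (n : Cfg d q) : Cfg d q := fun x => ∑ z ∈ cellsOf l x.1, n (z, x.2)

/-- push a pattern forward by a map of cells -/
def push (g : Cell d → Cell d) (u : Pat d q) : Pat d q :=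
  Finsupp.mapDomain (fun x => (g x.1, x.2)) u

/-- colour totals of a pattern -/
def tot (u : Pat d q) : Fin q → ℕ := fun i => u.sum (fun x k => if x.2 = i then k else 0)

/-- a natural vector as an integer vector -/
def toZ (x : Fin q → ℕ) : Fin q → ℤ := fun i => (x i : ℤ)

/-- the group generated by the types -/
def Lat (V : Finset (Fin q → ℕ)) : AddSubgroup (Fin q → ℤ) :=
  AddSubgroup.closure (toZ '' (V : Set (Fin q → ℕ)))

/-- the real cone generated by the types -/
def cone (V : Finset (Fin q → ℕ)) : Set (Fin q → ℝ) :=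
  {x | ∃ a : (Fin q → ℕ) → ℝ, (∀ v, 0 ≤ a v) ∧ x = fun i => ∑ v ∈ V, a v * (v i : ℝ)}

/-- an underconstrained setting -/
structure Dat (q : ℕ) where
  V : Finset (Fin q → ℕ)
  lam : Fin q → ℝ
  pos : ∀ i, 0 < lam i
  int : lam ∈ interior (cone V)
  unit : ∃ i, Pi.single i 1 ∉ V

/-- the pattern of a family: nonzero, allowed type, Euclidean diameter at most `r` -/
def Fam (V : Finset (Fin q → ℕ)) (r : ℝ) (u : Pat d q) : Prop :=
  u ≠ 0 ∧ tot u ∈ V ∧ ∀ x ∈ u.support, ∀ y ∈ u.support, nrm (x.1 - y.1) ≤ r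

/-- patterns which can be cut into families of diameter at most `r` -/
def Tl (V : Finset (Fin q → ℕ)) (r : ℝ) : AddSubmonoid (Pat d q) :=
  AddSubmonoid.closure {u | Fam V r u}

/-- `x` is close to `c * lam` -/
def Fat (lam : Fin q → ℝ) (η c : ℝ) (x : Fin q → ℕ) : Prop :=
  ∀ i, |(x i : ℝ) - c * lam i| ≤ η * c * lam i

/-- the constants of the absorption lemma -/
def ALok (D : Dat q) (d : ℕ) (η c₁ : ℝ) : Prop :=
  0 < η ∧ η ≤ 1 / 2 ∧ 0 < c₁ ∧
    ∀ (Y : Finset (Cell d)) (c : Cell d → ℝ) (v : Pat d q), Conn Y → (∀ x ∈ v.support, x.1 ∈ Y) →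
      (∀ b ∈ Y, c₁ ≤ c b ∧ Fat D.lam η (c b) (fun i => v (b, i))) → toZ (tot v) ∈ Lat D.V →
      v ∈ Tl D.V 2

/-- patterns of `μ` which touch the cube of radius `s` around 0, their part to the left of it
(used for `d = 1` only), as an integer vector -/
def leftCls (s : ℕ) (μ : Multiset (Pat d q)) : Fin q → ℤ :=
  ((μ.filter (fun u => ∃ x ∈ u.support, sn x.1 ≤ s)).map
    (fun u => toZ (tot (u.filter (fun x => ∃ i, x.1 i < -(s : ℤ)))))).sum

/-- the window of radius `T + N` around 0 can be matched by families of diameter at most `N` which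
cover every block at distance at most `T`; in dimension one with prescribed flow class `g` -/
def Good (V : Finset (Fin q → ℕ)) (N s T : ℕ) (m : Cfg d q) (g : Fin q → ℤ) : Prop :=
  ∃ (μ : Multiset (Pat d q)) (y : Pat d q), (∀ u ∈ μ, Fam V (N : ℝ) u) ∧
    (∀ x, sn x.1 ≤ T → y x = 0) ∧ μ.sum + y = rst m (cube 0 (T + N)) ∧
    (d = 1 → leftCls s μ - g ∈ Lat V)

/-- coloured cells of the cube of radius `T` around 0 -/
def win (d q T : ℕ) : Finset (CC d q) := cube 0 T ×ˢ Finset.univ

/-- a count vector on a finite set of coloured cells as a configuration -/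
def ext {W : Finset (CC d q)} (w : W → ℕ) : Cfg d q := fun x => if h : x ∈ W then w ⟨x, h⟩ else 0

/-- the bad windows, as a set of count vectors -/
def ZBad (d : ℕ) (V : Finset (Fin q → ℕ)) (N s T : ℕ) : Set (win d q (T + N) → ℕ) :=
  {w | ∃ g, ¬ Good V N s T (ext w) g}

/-- reduction of the counts of the ring `s < |b| ≤ T` by the factor `1 - e` -/
def red (e : ℝ) (s T : ℕ) (m : Cfg d q) : Cfg d q := fun x =>
  if s < sn x.1 ∧ sn x.1 ≤ T then m x - ⌊e * (m x : ℝ)⌋₊ else m x

/-- translation of a configuration -/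
def shift (c : Cell d) (m : Cfg d q) : Cfg d q := fun x => m (x.1 + c, x.2)

/-- probability that independent Poisson variables with means `L * lam k` form a vector in `Z` -/
def PL {κ : Type} [Fintype κ] (lam : κ → ℝ) (L : ℝ) (Z : Set (κ → ℕ)) : ℝ :=
  ∑' w : κ → ℕ, Z.indicator
    (fun w => ∏ k, (Real.exp (-(lam k * L)) * (lam k * L) ^ (w k) / (Nat.factorial (w k) : ℝ))) w

/-- the exponential rate of a set -/
def rate {κ : Type} [Fintype κ] (lam : κ → ℝ) (Z : Set (κ → ℕ)) : ℝ :=
  Filter.liminf (fun L : ℕ => -Real.log (PL lam L Z) / L) Filter.atTop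

/-- rate of the bad windows -/
def wrate (D : Dat q) (d N s T : ℕ) : ℝ :=
  rate (fun x : win d q (T + N) => D.lam x.1.2) (ZBad d D.V N s T)

/-- admissible window parameters -/
def Adm (D : Dat q) (d N s T : ℕ) : Prop :=
  d + 2 ≤ N ∧ N ≤ s ∧ s ≤ T ∧ (ZBad d D.V N s T).Nonempty

/-- the constant of the theorem -/
def aconst (D : Dat q) (d : ℕ) : ℝ :=
  sInf {a | ∃ N s T, Adm D d N s T ∧ a = wrate D d N s T / ((N : ℝ) - d) ^ d}

end

end Pool.Agent.H96.MC
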