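import Pool.Agent.H96.MC.Defs

/-!
Multicolour Poisson matchings (MP_5da387_pr): definitions for the multiscale construction.
-/

namespace Pool.Agent.H96.MC

open Classical MeasureTheory ProbabilityTheory

noncomputable section

variable {d q : ℕ}

/-- cells of the block `b` of side `l` within `w` of its boundary -/
def shellOf (l w : ℕ) (b : Cell d) : Finset (Cell d) :=
  (cellsOf l b).filter (fun z => ∃ i, z i < (l : ℤ) * b i + w ∨ (l : ℤ) * b i + l ≤ z i + w)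

/-- typical blocks: the counts are close to the mean and the shell contains few points -/
def Typ (D : Dat q) (η : ℝ) (w l : ℕ) (n : Cfg d q) (b : Cell d) : Prop :=
  Fat D.lam (η / 4) ((l : ℝ) ^ d) (fun i => bc l n (b, i)) ∧
    ∀ i, ((∑ z ∈ shellOf l w b, n (z, i) : ℕ) : ℝ) ≤ (η / 8) * (l : ℝ) ^ d * D.lam i

/-- parameters of the construction, level by level -/
structure Par where
  /-- block sides -/
  l : ℕ → ℕ
  /-- radii in block units -/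
  N : ℕ → ℕ
  /-- zone sizes -/
  A : ℕ → ℕ
  /-- shell widths -/
  w : ℕ → ℕ
  /-- reduction of the rings -/
  e : ℕ → ℝ
  /-- maximal number of atypical blocks -/
  n0 : ℕ → ℕ
  /-- inner window radii -/
  s : ℕ → ℕ → ℕ
  /-- outer window radii -/
  T : ℕ → ℕ → ℕ
  /-- collar width -/
  K : ℕ → ℕ
  /-- first relevant lower level -/
  k0 : ℕ → ℕ
  /-- maximal numbers of separated bad places of lower levels -/
  kap : ℕ → ℕ → ℕ

/-- the diameter allowed at level `j` -/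
def Par.R (P : Par) (d j : ℕ) : ℝ := (P.l j : ℝ) * ((P.N j : ℝ) + d + 1)

/-- the good event of level `j` at the cell `z`, given the bad events `Fl k` of the lower levels -/
def GG (D : Dat q) (P : Par) (η : ℝ) (n : Cfg d q) (j : ℕ) (z : Cell d)
    (Fl : ℕ → Cell d → Prop) : Prop :=
  ({b : Cell d | sn (b - bl (P.l j) z) * P.l j ≤ 2 * P.A j ∧
      ¬ Typ D η (P.w j) (P.l j) n b}.ncard ≤ P.n0 j) ∧
  (∀ c : Cell d, sn (c - bl (P.l j) z) * P.l j ≤ 2 * P.A j → ∀ i ≤ P.n0 j,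
    (∀ b, P.s j i < sn (b - c) → sn (b - c) ≤ P.T j i + P.N j →
      Typ D η (P.w j) (P.l j) n b) →
    ∀ g, Good D.V (P.N j) (P.s j i) (P.T j i)
      (red (P.e j) (P.s j i) (P.T j i) (shift c (bc (P.l j) n))) g) ∧
  (∀ k, P.k0 j ≤ k → k < j → ∀ S : Finset (Cell d),
    (∀ x ∈ S, sn (x - z) ≤ 2 * P.A j ∧ Fl k x) →
    (∀ x ∈ S, ∀ y ∈ S, x ≠ y → 10 * P.A k ≤ sn (x - y)) → S.card ≤ P.kap j k)

/-- history of the bad events -/
def Fseq (D : Dat q) (P : Par) (η : ℝ) (n : Cfg d q) : ℕ → ℕ → Cell d → Prop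
  | 0 => fun _ z => ¬ Typ D η (P.w 0) (P.l 0) n (bl (P.l 0) z)
  | (j + 1) => fun k z =>
      if k ≤ j then Fseq D P η n j k z else ¬ GG D P η n (j + 1) z (Fseq D P η n j)

/-- the bad event of level `j` at the cell `z` -/
def FF (D : Dat q) (P : Par) (η : ℝ) (n : Cfg d q) (j : ℕ) (z : Cell d) : Prop :=
  Fseq D P η n j j z

/-- the region lemma at block level, for the volume `L` of a block -/
def RLok (D : Dat q) (d : ℕ) (η : ℝ) (N n0 : ℕ) (e : ℝ) (s T : ℕ → ℕ) (K : ℕ) (L : ℝ) : Prop :=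
  ∀ (Y : Finset (Cell d)) (m : Cfg d q) (v : Pat d q) (ty : Cell d → Prop),
    Conn Y → (∀ x ∈ v.support, x.1 ∈ Y) →
    (∀ b, ty b → Fat D.lam (η / 4) L (fun i => m (b, i))) →
    (Y.filter (fun b => ¬ ty b)).card ≤ n0 →
    (∀ b ∈ Y, ∀ b', b' ∉ Y → sn (b - b') ≤ K → ty b) →
    (∀ b ∈ Y, (∀ b', sn (b - b') ≤ 1 → b' ∈ Y) → ∀ i, v (b, i) = m (b, i)) →
    (∀ b ∈ Y, ty b → Fat D.lam η L (fun i => v (b, i))) →
    (∀ c ∈ Y, ¬ ty c → ∀ i ≤ n0,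
      (∀ b, s i < sn (b - c) → sn (b - c) ≤ T i + N → ty b) →
      ∀ g, Good D.V N (s i) (T i) (red e (s i) (T i) (shift c m)) g) →
    toZ (tot v) ∈ Lat D.V → v ∈ Tl D.V (N : ℝ)

/-- length of a ring in which families are thinned out -/
def t1F (η e : ℝ) (N : ℕ) : ℕ := N * (2 + ⌈(4 / η) * Real.log (1 / e)⌉₊)

/-- scales of the cluster lemma -/
def rhoF (η e : ℝ) (N n0 : ℕ) : ℕ → ℕ
  | 0 => N
  | (i + 1) => 2 * (n0 * rhoF η e N n0 i + N + t1F η e N + N) + 1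

/-- inner radii -/
def sF (η e : ℝ) (N n0 i : ℕ) : ℕ := n0 * rhoF η e N n0 i + N

/-- outer radii -/
def TF (η e : ℝ) (N n0 i : ℕ) : ℕ := sF η e N n0 i + t1F η e N

/-- collar width -/
def KF (η e : ℝ) (N n0 : ℕ) : ℕ := TF η e N n0 n0 + N + 2

/-- a clean radius of level `j` around `z` -/
def Clean (D : Dat q) (P : Par) (η : ℝ) (n : Cfg d q) (j : ℕ) (z : Cell d) (h : ℕ) : Prop :=
  P.A j / (4 * P.l j) ≤ h ∧ h < 2 * (P.A j / (4 * P.l j)) ∧
  (∀ b : Cell d, sn (b - bl (P.l j) z) ≤ h + P.K j + 1 → h ≤ sn (b - bl (P.l j) z) + P.K j + 1 →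
    Typ D η (P.w j) (P.l j) n b) ∧
  (∀ z', sn (z' - z) ≤ 2 * P.A j → FF D P η n (j - 1) z' →
    h + P.K j + 1 < sn (bl (P.l j) z' - bl (P.l j) z) ∨
      sn (bl (P.l j) z' - bl (P.l j) z) + P.K j + 1 < h) ∧
  (∀ k, P.k0 j ≤ k → k + 2 ≤ j → ∀ z', sn (z' - z) ≤ 2 * P.A j → FF D P η n k z' →
    h + P.A (k + 1) / P.l j + 2 < sn (bl (P.l j) z' - bl (P.l j) z) ∨
      sn (bl (P.l j) z' - bl (P.l j) z) + P.A (k + 1) / P.l j + 2 < h)

/-- a zoning of the cells: regions with levels -/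
structure IsZon (D : Dat q) (P : Par) (η : ℝ) (n : Cfg d q) (J : ℕ)
    (reg : Cell d → Finset (Cell d)) (lev : Cell d → ℕ) : Prop where
  mem : ∀ x, x ∈ reg x
  part : ∀ x y, y ∈ reg x → reg y = reg x ∧ lev y = lev x
  base : ∀ x y, bl (P.l 0) x = bl (P.l 0) y → y ∈ reg x
  lev0 : ∀ x, lev x = 0 → reg x = cellsOf (P.l 0) (bl (P.l 0) x)
  res : ∀ x, lev x = 0 → FF D P η n 0 x → FF D P η n J x
  adj : ∀ x y, 1 ≤ lev x → Adj (bl (P.l 0) x) (bl (P.l 0) y) → reg x ≠ reg y → ¬ FF D P η n 0 x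
  zone : ∀ x, 1 ≤ lev x → ∃ (z : Cell d) (Y : Finset (Cell d)), lev x ≤ J ∧
    FF D P η n (lev x - 1) z ∧ ¬ FF D P η n (lev x) z ∧
    (∀ y ∈ reg x, sn (y - z) + P.l (lev x) ≤ P.A (lev x)) ∧ Conn Y ∧
    (∀ b ∈ Y, sn (b - bl (P.l (lev x)) z) * P.l (lev x) ≤ P.A (lev x)) ∧
    (∀ y ∈ reg x, bl (P.l (lev x)) y ∈ Y) ∧
    (∀ y, bl (P.l (lev x)) y ∈ Y → y ∉ reg x →
      ∃ y', bl (P.l (lev x)) y' ∉ Y ∧ 2 * sn (y - y') ≤ P.w (lev x)) ∧
    (∀ b ∈ Y, ∀ b', b' ∉ Y → sn (b - b') ≤ P.K (lev x) → Typ D η (P.w (lev x)) (P.l (lev x)) n b)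

/-- `r` is an allowed diameter at the cell `x`, up to level `J` -/
def Allow (D : Dat q) (P : Par) (η : ℝ) (n : Cfg d q) (J : ℕ) (x : Cell d) (r : ℝ) : Prop :=
  3 * d * (P.l 0 : ℝ) ≤ r ∧ ∀ j, 1 ≤ j → j ≤ J →
    (∃ z, sn (z - x) ≤ P.A j ∧ FF D P η n (j - 1) z) → P.R d j ≤ r

/-- the configuration of independent Poisson counts -/
def pois (D : Dat q) (d : ℕ) : Measure (Cfg d q) :=
  Measure.infinitePi (fun x : CC d q => poissonMeasure ⟨D.lam x.2, (D.pos x.2).le⟩)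

end

end Pool.Agent.H96.MC
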