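import Pool.Agent.H96.MC.Defs

/-!
Statement of the main theorem on multicolour Poisson matchings (MP_5da387_pr).
-/

namespace Pool.Agent.H96.MC

open MeasureTheory ProbabilityTheory

noncomputable section

/-- points of `ℝ^d` -/
abbrev Sp (d : ℕ) := EuclideanSpace ℝ (Fin d)

variable {d q : ℕ}

/-- type of a finite set `F` of points: the numbers of its points of each colour -/
def ftype (Pi : Fin q → Set (Sp d)) (F : Finset (Sp d)) : Fin q → ℕ :=
  fun i => ((F : Set (Sp d)) ∩ Pi i).ncard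

/-- diameter of a finite set of points -/
def fdiam (F : Finset (Sp d)) : ℝ := Metric.diam (F : Set (Sp d))

/-- the sigma-algebra on the finite subsets of `ℝ^d` generated by the counts `|F ∩ A|` -/
def famSigma (d : ℕ) : MeasurableSpace (Finset (Sp d)) :=
  ⨆ A : {A : Set (Sp d) // MeasurableSet A},
    MeasurableSpace.comap (fun F : Finset (Sp d) => ((F : Set (Sp d)) ∩ A.1).encard) ⊤

/-- translate of a finite set -/
def trF (t : Sp d) (F : Finset (Sp d)) : Finset (Sp d) := F.map (addRightEmbedding t)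

/-- independent Poisson processes with intensities `lam i`: the numbers of points in finitely many
bounded Borel sets which are disjoint or of different colours are independent Poisson variables -/
def IsPoisson {Ω : Type} [MeasurableSpace Ω] (P : Measure Ω) (lam : Fin q → ℝ)
    (Pi : Fin q → Ω → Set (Sp d)) : Prop :=
  (∀ i B, MeasurableSet B → Measurable (fun ω => (Pi i ω ∩ B).encard)) ∧
  ∀ (k : ℕ) (c : Fin k → Fin q) (B : Fin k → Set (Sp d)),
    (∀ j, MeasurableSet (B j)) → (∀ j, Bornology.IsBounded (B j)) →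
    (∀ j j', j ≠ j' → c j ≠ c j' ∨ Disjoint (B j) (B j')) →
    iIndepFun (fun j ω => (Pi (c j) ω ∩ B j).encard) P ∧
    ∀ j, P.map (fun ω => (Pi (c j) ω ∩ B j).encard) =
      (poissonMeasure ((lam (c j)).toNNReal * (volume (B j)).toNNReal)).map (fun m : ℕ => (m : ℕ∞))

/-- a translation-invariant `V`-matching scheme of independent Poisson processes -/
structure Scheme (V : Finset (Fin q → ℕ)) (lam : Fin q → ℝ) (d : ℕ) where
  /-- the probability space -/
  Ω : Type
  [mΩ : MeasurableSpace Ω]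
  P : Measure Ω
  [prob : IsProbabilityMeasure P]
  /-- the point sets of the colours -/
  Pi : Fin q → Ω → Set (Sp d)
  /-- the set of families -/
  M : Ω → Set (Finset (Sp d))
  poisson : IsPoisson P lam Pi
  /-- the families form a simple point process on the finite subsets of `ℝ^d` -/
  meas : ∀ S : Set (Finset (Sp d)), MeasurableSet[famSigma d] S →
    Measurable (fun ω => (M ω ∩ S).encard)
  /-- every family is nonempty, consists of points and has an allowed type -/
  fam : ∀ᵐ ω ∂P, ∀ F ∈ M ω, F.Nonempty ∧ ftype (fun i => Pi i ω) F ∈ V ∧ ∀ x ∈ F, ∃ i, x ∈ Pi i ω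
  /-- every point lies in exactly one family -/
  part : ∀ᵐ ω ∂P, ∀ i, ∀ x ∈ Pi i ω, ∃! F, F ∈ M ω ∧ x ∈ F
  /-- the joint law of the families and the points is invariant under all translations -/
  inv : ∀ (t : Sp d) (k m : ℕ) (S : Fin k → Set (Finset (Sp d))) (c : Fin m → Fin q)
    (B : Fin m → Set (Sp d)), (∀ a, MeasurableSet[famSigma d] (S a)) →
    (∀ b, MeasurableSet (B b)) →
    P.map (fun ω => ((fun a => {F | F ∈ M ω ∧ trF t F ∈ S a}.encard),
        (fun b => {x | x ∈ Pi (c b) ω ∧ x + t ∈ B b}.encard))) =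
      P.map (fun ω => ((fun a => (M ω ∩ S a).encard), (fun b => (Pi (c b) ω ∩ B b).encard)))

attribute [instance] Scheme.mΩ Scheme.prob

/-- the expectation of `Ψ(B)`, where `Ψ` is the sum of the Poisson processes -/
def Scheme.EPsi {V : Finset (Fin q → ℕ)} {lam : Fin q → ℝ} (S : Scheme V lam d)
    (B : Set (Sp d)) : ℝ :=
  (∫⁻ ω, ((∑ i, (S.Pi i ω ∩ B).encard : ℕ∞) : ENNReal) ∂S.P).toReal

/-- the distribution function of the typical diameter, computed with the set `B` -/
def Scheme.F {V : Finset (Fin q → ℕ)} {lam : Fin q → ℝ} (S : Scheme V lam d)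
    (B : Set (Sp d)) (r : ℝ) : ℝ :=
  (∫⁻ ω, (({x : Sp d | x ∈ B ∧ (∃ i, x ∈ S.Pi i ω) ∧ ∃ G ∈ S.M ω, x ∈ G ∧ fdiam G ≤ r}.encard :
    ℕ∞) : ENNReal) ∂S.P).toReal / S.EPsi B

/-- the main theorem -/
def MainTheorem : Prop :=
  ∀ (d q : ℕ) (lam : Fin q → ℝ) (V : Finset (Fin q → ℕ)), 1 ≤ d → (∀ i, 0 < lam i) →
    (∃ i, Pi.single i 1 ∉ V) → lam ∈ interior (cone V) →
    ∃ a : ℝ, 0 < a ∧
      (∃ S : Scheme V lam d, ∀ B : Set (Sp d), MeasurableSet B → 0 < volume B → volume B < ⊤ →
        ∀ ε > 0, ∀ᶠ r : ℝ in Filter.atTop, 1 - S.F B r ≤ Real.exp (-(a - ε) * r ^ d)) ∧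
      (∀ S : Scheme V lam d, ∀ B : Set (Sp d), MeasurableSet B → 0 < volume B → volume B < ⊤ →
        ∀ ε > 0, ∀ᶠ r : ℝ in Filter.atTop, Real.exp (-(a + ε) * r ^ d) ≤ 1 - S.F B r)

end

end Pool.Agent.H96.MC
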