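import Pool.Agent.H96.MC.Defs2
import Pool.Agent.H96.MC.Stmt

/-!
Multicolour Poisson matchings (MP_5da387_pr): labelled matchings of configurations.
-/

namespace Pool.Agent.H96.MC

open Classical MeasureTheory ProbabilityTheory

noncomputable section

variable {d q : ℕ}

/-- potential points: a coloured cell and a label -/
abbrev Pt (d q : ℕ) := CC d q × ℕ

/-- translation of a potential point -/
def trP (c : Cell d) (x : Pt d q) : Pt d q := ((x.1.1 + c, x.1.2), x.2)

/-- number of points of each colour -/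
def ltype (F : Finset (Pt d q)) : Fin q → ℕ := fun i => (F.filter (fun x => x.1.2 = i)).card

instance instMSF : MeasurableSpace (Finset (Pt d q)) := ⊤
instance instTSF : TopologicalSpace (Finset (Pt d q)) := ⊥

/-- configurations together with a map which attaches to every point its family -/
abbrev XX (d q : ℕ) := Cfg d q × (Pt d q → Finset (Pt d q))

/-- translation -/
def shX (c : Cell d) (ω : XX d q) : XX d q :=
  (shift c ω.1, fun x => (ω.2 (trP c x)).image (trP (-c)))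

/-- partial matchings -/
def IsMat (V : Finset (Fin q → ℕ)) (ω : XX d q) : Prop :=
  ∀ x, (ω.2 x).Nonempty → x ∈ ω.2 x ∧ ltype (ω.2 x) ∈ V ∧ ∀ y ∈ ω.2 x, ω.2 y = ω.2 x ∧ y.2 < ω.1 y.1

/-- perfect matchings -/
def IsPerf (V : Finset (Fin q → ℕ)) (ω : XX d q) : Prop :=
  IsMat V ω ∧ ∀ x : Pt d q, x.2 < ω.1 x.1 → (ω.2 x).Nonempty

/-- the family of `x` has diameter greater than `r` -/
def Far (r : ℝ) (ω : XX d q) (x : Pt d q) : Prop :=
  ∃ y ∈ ω.2 x, ∃ y' ∈ ω.2 x, r < nrm (y.1.1 - y'.1.1)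

/-- number of points of the cell 0 whose family has diameter greater than `r` -/
def numFar (r : ℝ) (ω : XX d q) : ℕ :=
  ∑ i : Fin q, ((Finset.range (ω.1 (0, i))).filter (fun k => Far r ω ((0, i), k))).card

/-- the discrete form of the upper bound -/
def T_DISC : Prop := ∀ (d q : ℕ) (D : Dat q), 1 ≤ d →
  ∃ μ : Measure (XX d q), IsProbabilityMeasure μ ∧ μ.map Prod.fst = pois D d ∧
    (∀ c, μ.map (shX c) = μ) ∧ (∀ᵐ ω ∂μ, IsPerf D.V ω) ∧
    ∀ ε > 0, ∀ᶠ r : ℝ in Filter.atTop,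
      ∫⁻ ω, (numFar r ω : ENNReal) ∂μ ≤ ENNReal.ofReal (Real.exp (-(aconst D d - ε) * r ^ d))

/-- tail of the typical diameter, computed with the unit cube -/
def Scheme.tl {V : Finset (Fin q → ℕ)} {lam : Fin q → ℝ} (S : Scheme V lam d) (r : ℝ) : ENNReal :=
  ∫⁻ ω, (({x : Sp d | (∀ i, 0 ≤ x i ∧ x i < 1) ∧ (∃ i, x ∈ S.Pi i ω) ∧
    ∃ G ∈ S.M ω, x ∈ G ∧ r < fdiam G}.encard : ℕ∞) : ENNReal) ∂S.P

end

end Pool.Agent.H96.MC
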