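import Pool.Agent.H96.MC.Iface

/-!
Further definitions for the multiscale construction (MP_5da387_pr).
-/

namespace Pool.Agent.H96.MC

open Classical MeasureTheory ProbabilityTheory

noncomputable section

variable {d q : ℕ}

/-- every class modulo the group of the types has a representative with entries in `[0, E)` -/
def ClsE (D : Dat q) (E : ℕ) : Prop :=
  1 ≤ E ∧ ∀ y : Fin q → ℤ, ∃ s : Fin q → ℕ, (∀ i, s i < E) ∧ y - toZ s ∈ Lat D.V

/-- deterministic conditions on the parameters -/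
structure POK (D : Dat q) (d : ℕ) (η c₁ : ℝ) (E : ℕ) (P : Par) : Prop where
  lpos : ∀ j, 1 ≤ P.l j
  dvd : ∀ j, P.l 0 ∣ P.l j
  lbig : ∀ j, 1 ≤ j → 8 * d * P.l 0 ≤ P.l j
  l0c : c₁ ≤ (P.l 0 : ℝ) ^ d
  l0E : ∀ i, 8 * (d : ℝ) * E ≤ η * (P.l 0 : ℝ) ^ d * D.lam i
  w0 : P.w 0 = 0
  k0 : ∀ j, 1 ≤ j → P.k0 j < j
  wk : ∀ j, 1 ≤ j → 4 * P.A (P.k0 j) + 4 * P.l 0 ≤ P.w j
  wl : ∀ j, 1 ≤ j → P.w j + 4 * P.l 0 ≤ P.l j
  Amono : ∀ j, 64 * P.A j ≤ P.A (j + 1)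
  lA : ∀ j, 16 * P.l j ≤ P.A j
  N2 : ∀ j, 1 ≤ j → d + 2 ≤ P.N j
  KA : ∀ j, 1 ≤ j → 8 * ((P.K j + 2) * P.l j) ≤ P.A j
  eK : ∀ j, 1 ≤ j → P.K j = KF η (P.e j) (P.N j) (P.n0 j)
  es : ∀ j, 1 ≤ j → ∀ i, P.s j i = sF η (P.e j) (P.N j) (P.n0 j) i
  eT : ∀ j, 1 ≤ j → ∀ i, P.T j i = TF η (P.e j) (P.N j) (P.n0 j) i
  pig : ∀ j, 1 ≤ j → P.n0 j * (2 * P.K j + 3) + ∑ k ∈ Finset.Ico (P.k0 j) j,
    P.kap j k * (2 * (10 * P.A k / P.l j + P.A (min (k + 1) (j - 1)) / P.l j + P.K j + 5) + 1) <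
      P.A j / (4 * P.l j)
  rl : ∀ j, 1 ≤ j → RLok D d η (P.N j) (P.n0 j) (P.e j) (P.s j) (P.T j) (P.K j) ((P.l j : ℝ) ^ d)

/-- the neighbours of a cell -/
def nb (b : Cell d) : Finset (Cell d) := (cube b 1).filter (fun b' => Adj b b')

/-- `o b b'` are the points of the base block `b` which are moved to the base block `b'` -/
structure Mv (l E : ℕ) (n : Cfg d q) (o : Cell d → Cell d → Pat d q) : Prop where
  src : ∀ b b', ∀ x ∈ (o b b').support, bl l x.1 = b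
  adj : ∀ b b', o b b' ≠ 0 → Adj b b'
  le : ∀ b b' i, tot (o b b') i ≤ E
  sum : ∀ b x, ∑ b' ∈ nb b, o b b' x ≤ rst n (cellsOf l b) x

/-- points which leave a region -/
def outP (l : ℕ) (o : Cell d → Cell d → Pat d q) (R : Finset (Cell d)) : Pat d q :=
  ∑ b ∈ R.image (bl l), ∑ b' ∈ (nb b).filter (fun b' => b' ∉ R.image (bl l)), o b b'

/-- points which enter a region -/
def inP (l : ℕ) (o : Cell d → Cell d → Pat d q) (R : Finset (Cell d)) : Pat d q :=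
  ∑ b ∈ R.image (bl l), ∑ b' ∈ (nb b).filter (fun b' => b' ∉ R.image (bl l)), o b' b

/-- the points which are matched inside a region -/
def regP (l : ℕ) (n : Cfg d q) (o : Cell d → Cell d → Pat d q) (R : Finset (Cell d)) : Pat d q :=
  (rst n R - outP l o R) + inP l o R

/-- independent Poisson counts with means `L * lam i` -/
def poisL (D : Dat q) (d : ℕ) (L : ℝ) : Measure (Cfg d q) :=
  Measure.infinitePi (fun x : CC d q => poissonMeasure (D.lam x.2 * L).toNNReal)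

/-- reduced bad windows with a typical ring -/
def RBs (D : Dat q) (d : ℕ) (η : ℝ) (N s T : ℕ) (e L : ℝ) : Set (Cfg d q) :=
  {m | (∀ b, s < sn b → sn b ≤ T + N → Fat D.lam (η / 4) L (fun i => m (b, i))) ∧
    ∃ g, ¬ Good D.V N s T (red e s T m) g}

/-- an event which is determined by the counts in a finite set of coloured cells -/
def DetBy (W : Finset (CC d q)) (S : Set (Cfg d q)) : Prop :=
  ∀ n n' : Cfg d q, (∀ x ∈ W, n x = n' x) → (n ∈ S ↔ n' ∈ S)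

end

end Pool.Agent.H96.MC
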