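import Pool.Agent.H96.MC.Basic

/-!
Interfaces between the parts of the proof (MP_5da387_pr).
-/

namespace Pool.Agent.H96.MC

open Classical MeasureTheory ProbabilityTheory

noncomputable section

variable {d q : ℕ}

/-- number of points of the cell `c` whose family has diameter greater than `r` -/
def numFarAt (c : Cell d) (r : ℝ) (ω : XX d q) : ℕ :=
  ∑ i : Fin q, ((Finset.range (ω.1 (c, i))).filter (fun k => Far r ω ((c, i), k))).card

/-- output of the deterministic construction in finite windows -/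
def T_FINW : Prop := ∀ (d q : ℕ) (D : Dat q), 1 ≤ d →
  ∃ (M : ℕ → ℕ) (τ : ℝ → ENNReal) (Φ : ℕ → Cfg d q → Pt d q → Finset (Pt d q)),
    Filter.Tendsto M Filter.atTop Filter.atTop ∧ (∀ J, Measurable (Φ J)) ∧
    (∀ J n, IsMat D.V (n, Φ J n)) ∧
    Filter.Tendsto (fun J => pois D d {n | ∃ x : Pt d q, sn x.1.1 ≤ M J ∧ x.2 < n x.1 ∧ Φ J n x = ∅})
      Filter.atTop (nhds 0) ∧
    (∀ J c r, sn c ≤ M J → ∫⁻ n, (numFarAt c r (n, Φ J n) : ENNReal) ∂(pois D d) ≤ τ r) ∧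
    Filter.Tendsto τ Filter.atTop (nhds 0) ∧
    ∀ ε > 0, ∀ᶠ r : ℝ in Filter.atTop, τ r ≤ ENNReal.ofReal (Real.exp (-(aconst D d - ε) * r ^ d))

/-- the constant is positive -/
def T_APOS : Prop := ∀ (d q : ℕ) (D : Dat q), 1 ≤ d → 0 < aconst D d

/-- the upper bound: a scheme with small tail -/
def T_UPPER : Prop := ∀ (d q : ℕ) (D : Dat q), 1 ≤ d → ∃ S : Scheme D.V D.lam d,
  ∀ ε > 0, ∀ᶠ r : ℝ in Filter.atTop, S.tl r ≤ ENNReal.ofReal (Real.exp (-(aconst D d - ε) * r ^ d))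

/-- the lower bound for every scheme -/
def T_LOWER : Prop := ∀ (d q : ℕ) (D : Dat q), 1 ≤ d → ∀ S : Scheme D.V D.lam d,
  ∀ ε > 0, ∀ᶠ r : ℝ in Filter.atTop, ENNReal.ofReal (Real.exp (-(aconst D d + ε) * r ^ d)) ≤ S.tl r

/-- the tail of the typical diameter does not depend on the set -/
def T_FTL : Prop := ∀ (d q : ℕ) (D : Dat q) (S : Scheme D.V D.lam d) (B : Set (Sp d)) (r : ℝ), 1 ≤ d →
  MeasurableSet B → 0 < volume B → volume B < ⊤ → 1 - S.F B r = (S.tl r).toReal / ∑ i, D.lam i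

end

end Pool.Agent.H96.MC
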